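import Pool.Agent.Lib.MP_efa496_an.Space

/-! The counterexample in the space of functions of exponential type at most one. -/

set_option autoImplicit false

namespace Pool.Agent.Lib.MP_efa496_an

open Complex Filter Topology Set Pointwise

/-- The quotient by `EE` has exponential type. -/
lemma quot_growth' {g h : ℂ → ℂ} (hh : Differentiable ℂ h) (hgh : ∀ z, g z = EE z * h z)
    {δ : ℝ} (hδ : 0 ≤ δ) (hb : ∀ ζ, ‖g ζ‖ ≤ δ * Real.exp (2 * ‖ζ‖)) (ζ : ℂ) :
    ‖h ζ‖ ≤ 2 * δ * Real.exp 48 * Real.exp (48 * ‖ζ‖) := by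
  have h1I : (1 + I : ℂ) ≠ 0 := by
    intro h3
    have := congrArg Complex.re h3
    simp at this
  set s₀ : ℂ := (1 + I) * ζ with hs₀
  set N : ℕ := ⌈‖s₀‖⌉₊ + 1 with hN
  have hN1 : 1 ≤ N := by omega
  have hNlt : ‖s₀‖ < N := by
    have := Nat.le_ceil ‖s₀‖
    rw [hN]
    push_cast
    linarith
  have hNle : (N : ℝ) ≤ ‖s₀‖ + 2 := by
    have := Nat.ceil_lt_add_one (norm_nonneg s₀)
    rw [hN]
    push_cast
    linarith
  have hs₀le : ‖s₀‖ ≤ 2 * ‖ζ‖ := by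
    rw [hs₀, norm_mul]
    exact mul_le_mul_of_nonneg_right norm_one_add_I_le (norm_nonneg _)
  have hH : Differentiable ℂ (fun s => h (s / (1 + I))) := hh.comp (differentiable_id.div_const _)
  have hbd : Bornology.IsBounded
      (Ioo (-(N : ℝ)) N ×ℂ Ioo (-(2 * Real.pi * N)) (2 * Real.pi * N)) :=
    (Metric.isBounded_Ioo _ _).reProdIm (Metric.isBounded_Ioo _ _)
  have key := Complex.norm_le_of_forall_mem_frontier_norm_le hbd hH.diffContOnCl
    (C := 2 * δ * Real.exp (24 * N)) (z := s₀) ?_ ?_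
  · have e : s₀ / (1 + I) = ζ := by
      rw [hs₀]; field_simp
    simp only [e] at key
    refine key.trans ?_
    rw [mul_assoc (2 * δ), ← Real.exp_add]
    apply mul_le_mul_of_nonneg_left _ (by positivity)
    apply Real.exp_le_exp.mpr
    linarith
  · intro s hs
    obtain ⟨a1, a2⟩ := half_le_frontier N hN1 s hs
    set w : ℂ := s / (1 + I) with hw
    have hws : (1 + I) * w = s := by
      rw [hw]; field_simp
    have hwle : ‖w‖ ≤ 8 * N := by
      have : ‖w‖ ≤ ‖s‖ := by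
        rw [← hws, norm_mul]
        exact le_mul_of_one_le_left (norm_nonneg _) norm_one_add_I_ge
      linarith
    have b1 := hb w
    have b2 : Real.exp (-‖w‖) * (1 / 2) ≤ ‖EE w‖ := by
      rw [EE_factor, hws, norm_mul, Complex.norm_exp]
      apply mul_le_mul _ a1 (by norm_num) (Real.exp_pos _).le
      apply Real.exp_le_exp.mpr
      have := Complex.re_le_norm w
      simp only [neg_re]
      linarith
    have b3 : Real.exp (-‖w‖) * (1 / 2) * ‖h w‖ ≤ δ * Real.exp (2 * ‖w‖) := by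
      refine le_trans ?_ b1
      rw [hgh w, norm_mul]
      exact mul_le_mul_of_nonneg_right b2 (norm_nonneg _)
    have b4 : ‖h w‖ ≤ 2 * δ * Real.exp (3 * ‖w‖) := by
      have e1 : Real.exp (3 * ‖w‖) = Real.exp (2 * ‖w‖) * Real.exp ‖w‖ := by
        rw [← Real.exp_add]; congr 1; ring
      have e2 : Real.exp (-‖w‖) * Real.exp ‖w‖ = 1 := by
        rw [← Real.exp_add]; simp
      have e3 := mul_le_mul_of_nonneg_right b3 (Real.exp_pos ‖w‖).le
      calc ‖h w‖ = 2 * (Real.exp (-‖w‖) * (1 / 2) * ‖h w‖ * Real.exp ‖w‖) := by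
            linear_combination (-‖h w‖) * e2
        _ ≤ 2 * (δ * Real.exp (2 * ‖w‖) * Real.exp ‖w‖) := by linarith
        _ = _ := by rw [e1]; ring
    refine b4.trans ?_
    apply mul_le_mul_of_nonneg_left _ (by positivity)
    apply Real.exp_le_exp.mpr
    linarith
  · apply subset_closure
    have a1 := Complex.abs_re_le_norm s₀
    have a2 := Complex.abs_im_le_norm s₀
    have hpi := Real.pi_gt_three
    have hN' : (1 : ℝ) ≤ N := by exact_mod_cast hN1
    have hb2 : (N : ℝ) ≤ 2 * Real.pi * N := by nlinarith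
    rw [abs_le] at a1 a2
    constructor
    · simp only [mem_preimage, mem_Ioo]
      constructor <;> linarith [a1.1, a1.2]
    · simp only [mem_preimage, mem_Ioo]
      constructor <;> linarith [a2.1, a2.2]

/-- Decay in the first quadrant relative to a radial weight. -/
lemma decay' {g : ℂ → ℂ} (hg : Differentiable ℂ g) (hz : ∀ c, EE c = 0 → g c = 0)
    {δ a : ℝ} (hδ : 0 ≤ δ) (ha : 0 ≤ a) (ha' : a ≤ 2) (hb : ∀ ζ, ‖g ζ‖ ≤ δ * Real.exp (a * ‖ζ‖))
    (ζ : ℂ) (h1 : 0 ≤ ζ.re) (h2 : 0 ≤ ζ.im) :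
    ‖g ζ‖ ≤ 4 * δ * Real.exp (a * (ζ.re + ζ.im) - min ζ.re ζ.im) := by
  obtain ⟨h, hh, hgh⟩ := exists_div hg EE_diff (fun c hc => deriv_EE_ne hc) hz
  set F : ℂ → ℂ := fun z => h z * exp (-(a * ((1 - I) * z))) with hF
  have hFd : Differentiable ℂ F := by
    rw [hF]
    fun_prop
  have hnF : ∀ z, ‖F z‖ = ‖h z‖ * Real.exp (-(a * (z.re + z.im))) := by
    intro z
    rw [hF]
    simp only
    rw [norm_mul, Complex.norm_exp]
    congr 2
    simp
  have hax : ∀ z : ℂ, ‖z‖ = z.re + z.im → 1 / 2 ≤ ‖EE z‖ → ‖F z‖ ≤ 2 * δ := by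
    intro z e1 e5
    have b1 := hb z
    rw [hgh z, norm_mul, e1] at b1
    have b2 : ‖h z‖ ≤ 2 * δ * Real.exp (a * (z.re + z.im)) := by
      have := mul_le_mul_of_nonneg_right e5 (norm_nonneg (h z))
      linarith
    rw [hnF, Real.exp_neg, ← div_eq_mul_inv, div_le_iff₀ (Real.exp_pos _)]
    exact b2
  have key : ‖F ζ‖ ≤ 2 * δ := by
    refine PhragmenLindelof.quadrant_I hFd.diffContOnCl ⟨1, by norm_num, 48, ?_⟩ ?_ ?_ h1 h2
    · apply Asymptotics.IsBigO.of_bound (2 * δ * Real.exp 48)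
      apply Filter.mem_inf_of_right
      intro z hz'
      have a1 : 0 < z.re := hz'.1
      have a2 : 0 < z.im := hz'.2
      simp only [mem_ofPred_eq, Real.rpow_one, Real.norm_eq_abs, Real.abs_exp]
      rw [hnF]
      have a3 : Real.exp (-(a * (z.re + z.im))) ≤ 1 :=
        Real.exp_le_one_iff.mpr (neg_nonpos.2 (by positivity))
      exact (mul_le_of_le_one_right (norm_nonneg _) a3).trans (quot_growth' hh hgh hδ
        (fun w => (hb w).trans (by gcongr)) z)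
    · exact fun x hx => hax x (by simp [abs_of_nonneg hx]) (EE_real x hx)
    · exact fun x hx => hax (x * I) (by simp [abs_of_nonneg hx]) (EE_imag x hx)
  rw [hnF, Real.exp_neg, ← div_eq_mul_inv, div_le_iff₀ (Real.exp_pos _)] at key
  have b2 : ‖EE ζ‖ ≤ 2 * Real.exp (-min ζ.re ζ.im) := by
    refine (norm_EE_le ζ).trans ?_
    have a1 : Real.exp (-ζ.im) ≤ Real.exp (-min ζ.re ζ.im) :=
      Real.exp_le_exp.mpr (by linarith [min_le_right ζ.re ζ.im])
    have a2 : Real.exp (-ζ.re) ≤ Real.exp (-min ζ.re ζ.im) :=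
      Real.exp_le_exp.mpr (by linarith [min_le_left ζ.re ζ.im])
    linarith
  rw [hgh ζ, norm_mul, sub_eq_add_neg, Real.exp_add]
  exact (mul_le_mul b2 key (norm_nonneg _) (by positivity)).trans_eq (by ring)

/-- The radial weights. -/
noncomputable def wd (n : ℕ) (z : ℂ) : ℝ := Real.exp ((1 + 1 / (n + 1)) * ‖z‖)

lemma wd_pos (n : ℕ) (z : ℂ) : 0 < wd n z := Real.exp_pos _

lemma wd_c (n : ℕ) : (1 : ℝ) + 1 / (n + 1) ≤ 2 := by
  have : (1 : ℝ) / (n + 1) ≤ 1 := by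
    rw [div_le_one (by positivity)]
    linarith [(Nat.cast_nonneg n : (0 : ℝ) ≤ n)]
  linarith

lemma exp_le_wd (n : ℕ) (z : ℂ) : Real.exp ‖z‖ ≤ wd n z :=
  Real.exp_le_exp.2 (le_mul_of_one_le_left (norm_nonneg _) (le_add_of_nonneg_right (by positivity)))

lemma wd_anti {n m : ℕ} (h : n ≤ m) (z : ℂ) : wd m z ≤ wd n z := by
  unfold wd
  gcongr

lemma wd_lip (n : ℕ) {a b : ℂ} (h : ‖a - b‖ ≤ 2) : wd n a ≤ Real.exp 4 * wd n b := by
  rw [wd, wd, ← Real.exp_add]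
  refine Real.exp_le_exp.2 ?_
  have h1 := norm_sub_norm_le a b
  have h2 := wd_c n
  have h3 : (0 : ℝ) ≤ 1 + 1 / (n + 1) := by positivity
  nlinarith

lemma wd_succ (n : ℕ) (z : ℂ) :
    Real.exp ((1 / (((n : ℝ) + 1) * (n + 2))) * ‖z‖) * wd (n + 1) z = wd n z := by
  unfold wd
  rw [← Real.exp_add]
  congr 1
  push_cast
  have : (0 : ℝ) ≤ n := Nat.cast_nonneg n
  field_simp
  ring

/-- The ambient module. -/
noncomputable def PD : Submodule ℂ (ℂ → Fin 5 → ℂ) where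
  carrier := {u | Differentiable ℂ u ∧
    ∀ n : ℕ, ∃ C : ℝ, 0 < C ∧ ∀ z j, ‖u z j‖ ≤ C * wd n z}
  add_mem' := by
    rintro a b ⟨ha, ha'⟩ ⟨hb, hb'⟩
    refine ⟨ha.add hb, fun n => ?_⟩
    obtain ⟨C1, h1, h1'⟩ := ha' n
    obtain ⟨C2, h2, h2'⟩ := hb' n
    refine ⟨C1 + C2, by linarith, fun z j => ?_⟩
    have := norm_add_le (a z j) (b z j)
    have a1 := h1' z j
    have a2 := h2' z j
    simp only [Pi.add_apply]
    linarith
  zero_mem' := by
    refine ⟨differentiable_const _, fun n => ⟨1, one_pos, fun z j => ?_⟩⟩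
    simpa using (wd_pos n _).le
  smul_mem' := by
    rintro c a ⟨ha, ha'⟩
    refine ⟨ha.const_smul c, fun n => ?_⟩
    obtain ⟨C1, h1, h1'⟩ := ha' n
    refine ⟨(‖c‖ + 1) * C1, by positivity, fun z j => ?_⟩
    simp only [Pi.smul_apply, smul_eq_mul, norm_mul]
    rw [mul_assoc]
    exact mul_le_mul (by linarith) (h1' z j) (norm_nonneg _) (by positivity)

lemma mem_PD {u : ℂ → Fin 5 → ℂ} : u ∈ PD ↔ Differentiable ℂ u ∧
    ∀ n : ℕ, ∃ C : ℝ, 0 < C ∧ ∀ z j, ‖u z j‖ ≤ C * wd n z := Iff.rfl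

/-- Basic neighbourhoods of zero. -/
def BD (n : ℕ) (δ : ℝ) : Set PD :=
  {u | ∀ z j, ‖(u : ℂ → Fin 5 → ℂ) z j‖ ≤ δ * wd n z}

lemma BD_mono {n m : ℕ} {δ ε : ℝ} (h : n ≤ m) (h0 : 0 ≤ δ) (h' : δ ≤ ε) : BD m δ ⊆ BD n ε := by
  intro u hu z j
  exact (hu z j).trans (mul_le_mul h' (wd_anti h _) (wd_pos _ _).le (h0.trans h'))

lemma smul_mem_BD {n : ℕ} {δ ε : ℝ} {u : PD} {c : ℂ} (hu : u ∈ BD n δ) (h : ‖c‖ * δ ≤ ε) :
    c • u ∈ BD n ε := by
  intro z j
  have := hu z j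
  simp only [SetLike.val_smul, Pi.smul_apply, smul_eq_mul, norm_mul]
  calc ‖c‖ * ‖(u : ℂ → Fin 5 → ℂ) z j‖ ≤ ‖c‖ * (δ * wd n z) :=
        mul_le_mul_of_nonneg_left this (norm_nonneg _)
    _ = (‖c‖ * δ) * wd n z := by ring
    _ ≤ _ := mul_le_mul_of_nonneg_right h (wd_pos _ _).le

lemma add_mem_BD {n : ℕ} {δ ε : ℝ} {u v : PD} (hu : u ∈ BD n δ) (hv : v ∈ BD n ε) :
    u + v ∈ BD n (δ + ε) := by
  intro z j
  have a1 := hu z j
  have a2 := hv z j
  have := norm_add_le ((u : ℂ → Fin 5 → ℂ) z j) ((v : ℂ → Fin 5 → ℂ) z j)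
  simp only [Submodule.coe_add, Pi.add_apply]
  linarith

/-- The additive group filter basis. -/
@[reducible] noncomputable def gbD : AddGroupFilterBasis PD :=
  addGroupFilterBasisOfComm {U | ∃ n : ℕ, ∃ δ : ℝ, 0 < δ ∧ U = BD n δ}
    ⟨BD 0 1, 0, 1, one_pos, rfl⟩
    (by
      rintro _ _ ⟨n, δ, hδ, rfl⟩ ⟨m, ε, hε, rfl⟩
      refine ⟨BD (max n m) (min δ ε), ⟨_, _, lt_min hδ hε, rfl⟩, subset_inter ?_ ?_⟩
      · exact BD_mono (le_max_left _ _) (lt_min hδ hε).le (min_le_left _ _)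
      · exact BD_mono (le_max_right _ _) (lt_min hδ hε).le (min_le_right _ _))
    (by
      rintro _ ⟨n, δ, hδ, rfl⟩ z j
      simpa using (mul_pos hδ (wd_pos n _)).le)
    (by
      rintro _ ⟨n, δ, hδ, rfl⟩
      refine ⟨BD n (δ / 2), ⟨_, _, half_pos hδ, rfl⟩, ?_⟩
      rintro _ ⟨u, hu, v, hv, rfl⟩
      have := add_mem_BD hu hv
      rwa [add_halves] at this)
    (by
      rintro _ ⟨n, δ, hδ, rfl⟩
      refine ⟨BD n δ, ⟨_, _, hδ, rfl⟩, ?_⟩
      intro u hu z j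
      simpa using hu z j)

/-- The module filter basis. -/
noncomputable def mbD : ModuleFilterBasis ℂ PD :=
  { gbD with
    smul' := by
      rintro _ ⟨n, δ, hδ, rfl⟩
      refine ⟨Metric.ball 0 1, Metric.ball_mem_nhds _ one_pos, BD n δ, ⟨_, _, hδ, rfl⟩, ?_⟩
      rintro _ ⟨c, hc, v, hv, rfl⟩
      apply smul_mem_BD hv
      have : ‖c‖ < 1 := by simpa using hc
      nlinarith
    smul_left' := by
      rintro c _ ⟨n, δ, hδ, rfl⟩
      refine ⟨BD n (δ / (‖c‖ + 1)), ⟨_, _, by positivity, rfl⟩, ?_⟩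
      intro v hv
      apply smul_mem_BD hv
      rw [mul_div_assoc', div_le_iff₀ (by positivity)]
      nlinarith
    smul_right' := by
      rintro v _ ⟨n, δ, hδ, rfl⟩
      obtain ⟨C, hC, hv⟩ := v.2.2 n
      filter_upwards [Metric.ball_mem_nhds (0 : ℂ) (div_pos hδ hC)] with c hc
      apply smul_mem_BD (δ := C) hv
      have : ‖c‖ < δ / C := by simpa using hc
      rw [lt_div_iff₀ hC] at this
      exact this.le }

/-- The topology. -/
@[reducible] noncomputable def tauD : TopologicalSpace PD := mbD.topology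

lemma mem_nhds_tauD {V : Set PD} :
    V ∈ @nhds PD tauD 0 ↔ ∃ n : ℕ, ∃ δ : ℝ, 0 < δ ∧ BD n δ ⊆ V := by
  have h := mbD.toAddGroupFilterBasis.nhds_zero_hasBasis
  rw [h.mem_iff]
  constructor
  · rintro ⟨_, ⟨n, δ, hδ, rfl⟩, h2⟩
    exact ⟨n, δ, hδ, h2⟩
  · rintro ⟨n, δ, hδ, h2⟩
    exact ⟨_, ⟨n, δ, hδ, rfl⟩, h2⟩

lemma BD_mem_nhds (n : ℕ) {δ : ℝ} (hδ : 0 < δ) : BD n δ ∈ @nhds PD tauD 0 :=
  mem_nhds_tauD.mpr ⟨n, δ, hδ, Subset.rfl⟩

lemma tauD_addGroup : @IsTopologicalAddGroup PD tauD _ :=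
  mbD.toAddGroupFilterBasis.isTopologicalAddGroup

lemma tauD_smul : @ContinuousSMul ℂ PD _ _ tauD := mbD.continuousSMul

lemma tauD_t2 : @T2Space PD tauD := by
  refine (@AddGroupFilterBasis.t2Space_iff_sInter_subset PD _ tauD mbD.toAddGroupFilterBasis
    rfl).mpr ?_
  intro u hu
  rw [mem_singleton_iff]
  apply Subtype.ext
  funext z j
  have h : ∀ δ : ℝ, 0 < δ → ‖(u : ℂ → Fin 5 → ℂ) z j‖ ≤ δ * wd 0 z :=
    fun δ hδ => hu (BD 0 δ) ⟨0, δ, hδ, rfl⟩ z j
  have hw := wd_pos 0 z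
  have : ‖(u : ℂ → Fin 5 → ℂ) z j‖ ≤ 0 := by
    apply le_of_forall_pos_le_add
    intro ε hε
    have := h (ε / wd 0 z) (by positivity)
    rw [div_mul_cancel₀ _ hw.ne'] at this
    linarith
  simpa using this

lemma poly_smul_boundD (p : Polynomial ℂ) (n : ℕ) : ∃ K : ℝ, 0 < K ∧
    ∀ (f : ℂ → Fin 5 → ℂ) (C : ℝ), 0 ≤ C → (∀ z j, ‖f z j‖ ≤ C * wd (n + 1) z) →
      ∀ z j, ‖(p.eval z • f z) j‖ ≤ K * C * wd n z := by
  have hη : (0 : ℝ) < 1 / (((n : ℝ) + 1) * (n + 2)) := by positivity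
  obtain ⟨K, hK, hp⟩ := poly_bound p hη
  refine ⟨K, hK, fun f C hC hf z j => ?_⟩
  simp only [Pi.smul_apply, smul_eq_mul, norm_mul]
  rw [← wd_succ n]
  exact (mul_le_mul (hp z) (hf z j) (norm_nonneg _) (by positivity)).trans_eq (by ring)

lemma poly_smul_memD (p : Polynomial ℂ) (f : ℂ → Fin 5 → ℂ) (hf : f ∈ PD) :
    (fun w => p.eval w • f w) ∈ PD := by
  refine ⟨p.differentiable.smul hf.1, fun n => ?_⟩
  obtain ⟨K, hK, h⟩ := poly_smul_boundD p n
  obtain ⟨C, hC, hf'⟩ := hf.2 (n + 1)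
  exact ⟨K * C, mul_pos hK hC, h f C hC.le hf'⟩

lemma poly_smul_contD (p : Polynomial ℂ) (g : PD → PD)
    (hg : ∀ x : PD, ((g x : PD) : ℂ → Fin 5 → ℂ) = fun w => p.eval w • (x : ℂ → Fin 5 → ℂ) w) :
    @Continuous PD PD tauD tauD g := by
  let _ := tauD
  have := tauD_addGroup
  let G : PD →+ PD := AddMonoidHom.mk' g (by
    intro a b
    apply Subtype.ext
    rw [Submodule.coe_add, hg, hg, hg]
    funext w
    simp [smul_add])
  have : Continuous G := by
    apply continuous_of_continuousAt_zero G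
    rw [ContinuousAt, map_zero]
    intro V hV
    obtain ⟨n, δ, hδ, hV⟩ := mem_nhds_tauD.mp hV
    obtain ⟨K, hK, h⟩ := poly_smul_boundD p n
    refine mem_nhds_tauD.mpr ⟨n + 1, δ / K, by positivity, ?_⟩
    intro x hx
    apply hV
    intro z j
    have := h x (δ / K) (by positivity) hx z j
    rw [mul_div_cancel₀ _ hK.ne'] at this
    change ‖((g x : PD) : ℂ → Fin 5 → ℂ) z j‖ ≤ _
    rw [hg]
    exact this
  exact this

lemma div_bound_vecD {g x : ℂ → Fin 5 → ℂ} (hg : Differentiable ℂ g) (c : ℂ)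
    (hx : ∀ w, x w = (w - c) • g w) {n : ℕ} {K : ℝ} (hK : 0 ≤ K)
    (hb : ∀ z j, ‖x z j‖ ≤ K * wd n z) (z : ℂ) (j : Fin 5) :
    ‖g z j‖ ≤ (K * Real.exp 4) * wd n z := by
  rw [mul_assoc]
  refine div_bound (W := wd n) (differentiable_pi.mp hg j) hK (fun a b => wd_lip n) c
    (fun w => ?_) z
  have := hb w j
  rw [hx w] at this
  simpa using this

lemma sum_boundD {n : ℕ} (F : Fin n → PD) (m : ℕ) : ∃ C : ℝ, 0 < C ∧ ∀ z,
    ∑ i, ‖(F i : ℂ → Fin 5 → ℂ) z‖ ≤ C * wd m z := by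
  choose C hC hF using fun i => (F i).2.2 m
  refine ⟨∑ i, C i + 1, ?_, fun z => ?_⟩
  · have : 0 ≤ ∑ i, C i := Finset.sum_nonneg fun i _ => (hC i).le
    linarith
  · rw [add_mul, Finset.sum_mul]
    have : ∑ i, ‖(F i : ℂ → Fin 5 → ℂ) z‖ ≤ ∑ i, C i * wd m z := Finset.sum_le_sum fun i _ =>
      (pi_norm_le_iff_of_nonneg (mul_pos (hC i) (wd_pos _ _)).le).2 (hF i z)
    have := wd_pos m z
    linarith

/-- The five rotations. -/
noncomputable def omD : Fin 5 → ℂ :=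
  ![1, ⟨4 / 5, 3 / 5⟩, ⟨7 / 25, 24 / 25⟩, ⟨4 / 5, -3 / 5⟩, ⟨7 / 25, -24 / 25⟩]

lemma norm_omD (j : Fin 5) : ‖omD j‖ = 1 := by
  rw [← sq_eq_sq₀ (norm_nonneg _) zero_le_one, Complex.sq_norm, Complex.normSq_apply]
  fin_cases j <;> norm_num [omD]

lemma omD_ne (j : Fin 5) : omD j ≠ 0 := norm_ne_zero_iff.1 (by rw [norm_omD]; exact one_ne_zero)

/-- The divisorial submodule. -/
noncomputable def ID : Submodule ℂ (ℂ → Fin 5 → ℂ) where
  carrier := {u | u ∈ PD ∧ ∀ z j, EE (omD j * z) = 0 → u z j = 0}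
  add_mem' := by
    rintro a b ⟨ha, ha'⟩ ⟨hb, hb'⟩
    refine ⟨PD.add_mem ha hb, fun z j h => ?_⟩
    simp [ha' z j h, hb' z j h]
  zero_mem' := ⟨PD.zero_mem, fun z j _ => rfl⟩
  smul_mem' := by
    rintro c a ⟨ha, ha'⟩
    refine ⟨PD.smul_mem c ha, fun z j h => ?_⟩
    simp [ha' z j h]

/-- The diagonal generators. -/
noncomputable def genD (s : Fin 5) : ℂ → Fin 5 → ℂ :=
  fun z j => if j = s then exp ((1 - I) * (omD j * z)) * EE (omD j * z) else 0

lemma genD_mem (s : Fin 5) : genD s ∈ ID := by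
  refine ⟨⟨differentiable_pi.mpr fun j => ?_, fun n => ⟨2, two_pos, fun z j => ?_⟩⟩,
    fun z j h => by simp [genD, h]⟩
  · unfold genD
    split_ifs
    · exact Differentiable.mul (by fun_prop) (EE_diff.comp (differentiable_id.const_mul _))
    · exact differentiable_const _
  · unfold genD
    split_ifs
    · have e : ∀ ζ : ℂ, exp ((1 - I) * ζ) * EE ζ = exp ζ + exp (-I * ζ) := fun ζ => by
        rw [EE, mul_add, ← Complex.exp_add, ← Complex.exp_add]
        congr 2 <;> ring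
      have a1 := Complex.norm_exp_le_exp_norm (omD j * z)
      have a2 := Complex.norm_exp_le_exp_norm (-I * (omD j * z))
      simp only [norm_mul, norm_omD, norm_neg, norm_I, one_mul] at a1 a2
      rw [e]
      linarith [norm_add_le (exp (omD j * z)) (exp (-I * (omD j * z))), exp_le_wd n z]
    · simpa using (wd_pos _ _).le

/-- The element with respect to which saturation fails. -/
noncomputable def fD : ℂ → Fin 5 → ℂ := fun z j => exp (7 / 10 * ((1 - I) * (omD j * z)))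

lemma norm_fD (z : ℂ) (j : Fin 5) :
    ‖fD z j‖ = Real.exp (7 / 10 * ((omD j * z).re + (omD j * z).im)) := by
  rw [fD, Complex.norm_exp]
  generalize omD j * z = ζ
  congr 1
  simp

lemma fD_mem : fD ∈ PD := by
  refine ⟨differentiable_pi.mpr fun j => by unfold fD; fun_prop, fun n => ⟨1, one_pos, fun z j => ?_⟩⟩
  rw [one_mul, norm_fD]
  refine le_trans (Real.exp_le_exp.2 ?_) (exp_le_wd n z)
  have e : ‖z‖ = ‖omD j * z‖ := by rw [norm_mul, norm_omD, one_mul]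
  rw [e]
  generalize omD j * z = ζ
  refine abs_le_of_sq_le_sq' ?_ (norm_nonneg _) |>.2
  rw [Complex.sq_norm, Complex.normSq_apply]
  nlinarith [sq_nonneg (ζ.re - ζ.im), sq_nonneg ζ.re, sq_nonneg ζ.im]

lemma exists_sectorD (z : ℂ) (hz : 0 ≤ z.re + z.im) : ∃ j : Fin 5, 0 ≤ (omD j * z).re ∧
    0 ≤ (omD j * z).im ∧ 101 / 100 * ((omD j * z).re + (omD j * z).im) -
      min (omD j * z).re (omD j * z).im ≤
        7 / 10 * ((omD j * z).re + (omD j * z).im) - (z.re + z.im) / 100 := by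
  have k : ∀ j : Fin 5, ∀ a b : ℝ, omD j = ⟨a, b⟩ → 0 ≤ a * z.re - b * z.im →
      0 ≤ a * z.im + b * z.re →
      31 / 100 * (a * z.re - b * z.im + (a * z.im + b * z.re)) + (z.re + z.im) / 100 ≤
        a * z.re - b * z.im →
      31 / 100 * (a * z.re - b * z.im + (a * z.im + b * z.re)) + (z.re + z.im) / 100 ≤
        a * z.im + b * z.re → ∃ j : Fin 5, 0 ≤ (omD j * z).re ∧
      0 ≤ (omD j * z).im ∧ 101 / 100 * ((omD j * z).re + (omD j * z).im) -
        min (omD j * z).re (omD j * z).im ≤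
          7 / 10 * ((omD j * z).re + (omD j * z).im) - (z.re + z.im) / 100 :=
    fun j a b e h1 h2 h3 h4 => ⟨j, by
      rw [e, mul_re, mul_im]
      exact ⟨h1, h2, by linarith [le_min h3 h4]⟩⟩
  rcases le_total z.im (-2 / 11 * z.re) with h1 | h1
  · exact k 2 _ _ rfl (by linarith) (by linarith) (by linarith) (by linarith)
  rcases le_total z.re (-2 / 11 * z.im) with h2 | h2
  · exact k 4 _ _ rfl (by linarith) (by linarith) (by linarith) (by linarith)
  rcases le_total z.im (z.re / 2) with h3 | h3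
  · exact k 1 _ _ rfl (by linarith) (by linarith) (by linarith) (by linarith)
  rcases le_total z.re (z.im / 2) with h4 | h4
  · exact k 3 _ _ rfl (by linarith) (by linarith) (by linarith) (by linarith)
  · exact k 0 1 0 rfl (by linarith) (by linarith) (by linarith) (by linarith)

lemma small_rowD (z : ℂ) (hz : 0 ≤ z.re + z.im) : ∃ j : Fin 5, ∀ u : PD, u ∈ BD 99 (1 / 4) →
    (u : ℂ → Fin 5 → ℂ) ∈ ID →
      ‖(u : ℂ → Fin 5 → ℂ) z j‖ ≤ ‖fD z j‖ * Real.exp (-((z.re + z.im) / 100)) := by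
  obtain ⟨j, h1, h2, h3⟩ := exists_sectorD z hz
  refine ⟨j, fun u hu hI => ?_⟩
  have hj := omD_ne j
  have key := decay' (g := fun ζ => (u : ℂ → Fin 5 → ℂ) (ζ / omD j) j)
    ((differentiable_pi.mp u.2.1 j).comp (differentiable_id.div_const _))
    (fun c hc => hI.2 _ _ (by rwa [mul_div_cancel₀ _ hj])) (δ := 1 / 4) (a := 101 / 100)
    (by norm_num) (by norm_num) (by norm_num) (fun ζ => by
      have := hu (ζ / omD j) j
      rw [wd, norm_div, norm_omD, div_one] at this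
      convert this using 4
      norm_num) (omD j * z) h1 h2
  rw [mul_div_cancel_left₀ _ hj] at key
  rw [norm_fD, ← Real.exp_add]
  have := Real.exp_le_exp.mpr h3
  rw [← sub_eq_add_neg]
  linarith

lemma cramer_boundD {k : ℕ} (M : Matrix (Fin k) (Fin k) ℂ) (hM : M.det ≠ 0) (b : Fin k → ℂ)
    (r : Fin k) {t : ℝ} (ht : ∀ s, ‖M r s‖ ≤ t) :
    ‖b r‖ ≤ t * ∑ s, ‖(M.updateCol s b).det / M.det‖ := by
  have h := congrFun (Matrix.mulVec_cramer M b) r
  simp only [Matrix.mulVec, dotProduct, Matrix.cramer_apply, Pi.smul_apply, smul_eq_mul] at h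
  have h2 : b r = ∑ s, M r s * ((M.updateCol s b).det / M.det) := by
    simp only [← mul_div_assoc]
    rw [← Finset.sum_div, h, mul_div_cancel_left₀ _ hM]
  rw [h2, Finset.mul_sum]
  refine (norm_sum_le _ _).trans (Finset.sum_le_sum fun s _ => ?_)
  rw [norm_mul]
  exact mul_le_mul_of_nonneg_right (ht s) (norm_nonneg _)

end Pool.Agent.Lib.MP_efa496_an
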