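import Pool.Agent.Lib.MP_efa496_an.OwnDefs

/-! Functions of exponential type at most one, and condition (3) for the maximum norm. -/

namespace Pool.Agent.Lib.MP_efa496_an

open Filter Topology

variable {q : ℕ} {E : Type} [AddCommGroup E] [Module ℂ E] [TopologicalSpace E]

/-- `E` is the space of all entire functions of exponential type at most one, with the topology of
the weighted norms. -/
def ExpType {E : Type} [Zero E] [TopologicalSpace E] (ι : E → Fin q → ℂ → ℂ) : Prop :=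
  (∀ g : Fin q → ℂ → ℂ, (∃ y, ι y = g) ↔ (∀ j, Differentiable ℂ (g j)) ∧
    ∀ ε : ℝ, 0 < ε → ∃ C : ℝ, ∀ j z, ‖g j z‖ ≤ C * Real.exp ((1 + ε) * ‖z‖)) ∧
  ∀ V : Set E, V ∈ 𝓝 (0 : E) ↔ ∃ ε δ : ℝ, 0 < ε ∧ 0 < δ ∧
    {f | ∀ j z, ‖ι f j z‖ ≤ δ * Real.exp ((1 + ε) * ‖z‖)} ⊆ V

/-- Condition (3) with the maximum norm of the vectors in place of the single components. -/
def Cond3N (ι : E → Fin q → ℂ → ℂ) : Prop :=
  ∀ (n : ℕ) (F : Fin n → E),
    (∀ g : Fin q → ℂ → ℂ, (∀ j, Differentiable ℂ (g j)) →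
      (∀ z, ‖fun j => g j z‖ ≤ ∑ m, ‖fun j => ι (F m) j z‖) → ∃ y, ι y = g) ∧
    Bornology.IsVonNBounded ℂ {g : E | ∀ z, ‖fun j => ι g j z‖ ≤ ∑ m, ‖fun j => ι (F m) j z‖}

end Pool.Agent.Lib.MP_efa496_an
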