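import Mathlib

/-!
Germs, divisorial submodules, local rank and saturation for modules of entire functions.
-/

namespace Pool.Agent.Lib.MP_efa496_an

open Filter Topology
open scoped ENNReal

/-- The ring of germs at `c` of analytic functions. -/
def OGerm (c : ℂ) : Subring (Germ (𝓝 c) ℂ) where
  carrier := {γ | ∃ h : ℂ → ℂ, AnalyticAt ℂ h c ∧ γ = (h : Germ (𝓝 c) ℂ)}
  zero_mem' := ⟨0, analyticAt_const, rfl⟩
  one_mem' := ⟨1, analyticAt_const, rfl⟩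
  add_mem' := by
    rintro _ _ ⟨f, hf, rfl⟩ ⟨g, hg, rfl⟩
    exact ⟨f + g, hf.add hg, rfl⟩
  mul_mem' := by
    rintro _ _ ⟨f, hf, rfl⟩ ⟨g, hg, rfl⟩
    exact ⟨f * g, hf.mul hg, rfl⟩
  neg_mem' := by
    rintro _ ⟨f, hf, rfl⟩
    exact ⟨-f, hf.neg, rfl⟩

variable {q : ℕ} {E : Type} [AddCommGroup E] [Module ℂ E]

/-- `ι` identifies `E` with a vector space of entire functions with values in `ℂ ^ q`. -/
def Emb (ι : E → Fin q → ℂ → ℂ) : Prop :=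
  Function.Injective ι ∧ (∀ x y j z, ι (x + y) j z = ι x j z + ι y j z) ∧
    (∀ (c : ℂ) x j z, ι (c • x) j z = c * ι x j z) ∧ ∀ x j, Differentiable ℂ (ι x j)

/-- `γ` is the germ of `f` at `c`. -/
def IsGerm (c : ℂ) (f : Fin q → ℂ → ℂ) (γ : Fin q → OGerm c) : Prop :=
  ∀ j, (γ j).1 = (f j : Germ (𝓝 c) ℂ)

/-- The local module generated by the germs of the elements of `I`. -/
noncomputable def Loc (ι : E → Fin q → ℂ → ℂ) (I : Submodule ℂ E) (c : ℂ) :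
    Submodule (OGerm c) (Fin q → OGerm c) :=
  Submodule.span (OGerm c) {γ | ∃ f ∈ I, IsGerm c (ι f) γ}

/-- Closed under multiplication by polynomials. -/
def PolyStable (ι : E → Fin q → ℂ → ℂ) (I : Submodule ℂ E) : Prop :=
  ∀ p : Polynomial ℂ, ∀ f ∈ I, ∃ g ∈ I, ∀ j z, ι g j z = p.eval z * ι f j z

/-- `I` consists of the elements whose germs lie in the local modules. -/
def Divisorial (ι : E → Fin q → ℂ → ℂ) (I : Submodule ℂ E) : Prop :=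
  ∀ f, f ∈ I ↔ ∀ c, ∃ γ ∈ Loc ι I c, IsGerm c (ι f) γ

/-- `k` is the largest rank of a local module of `I`. -/
def LocalRank (ι : E → Fin q → ℂ → ℂ) (I : Submodule ℂ E) (k : ℕ) : Prop :=
  IsGreatest (Set.range fun c => Module.rank (OGerm c) (Loc ι I c)) k

/-- The matrix of the rows `J` of the system `u` at `z`. -/
def mat {E : Type} {k : ℕ} (ι : E → Fin q → ℂ → ℂ) (u : Fin k → E) (J : Fin k → Fin q) (z : ℂ) :
    Matrix (Fin k) (Fin k) ℂ :=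
  Matrix.of fun r s => ι (u s) (J r) z

/-- The majorant of the problem. -/
noncomputable def major (ι : E → Fin q → ℂ → ℂ) (I : Submodule ℂ E) (k : ℕ) (f : E) (V : Set E)
    (z : ℂ) : ℝ≥0∞ :=
  1 + ⨅ (u : Fin k → E) (J : Fin k → Fin q)
    (_ : (∀ s, u s ∈ V ∧ u s ∈ I) ∧ StrictMono J ∧ (mat ι u J z).det ≠ 0),
      ∑ s, ‖((mat ι u J z).updateCol s fun r => ι f (J r) z).det / (mat ι u J z).det‖ₑ

variable [TopologicalSpace E]

/-- Point evaluations and multiplication by polynomials are continuous. -/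
def ContOps {E : Type} [TopologicalSpace E] (ι : E → Fin q → ℂ → ℂ) : Prop :=
  (∀ j z, Continuous fun f => ι f j z) ∧
    ∀ p : Polynomial ℂ, ∃ g : E → E, Continuous g ∧ ∀ f j z, ι (g f) j z = p.eval z * ι f j z

/-- Uniform stability. -/
def UnifStable {E : Type} [Zero E] [TopologicalSpace E] (ι : E → Fin q → ℂ → ℂ) : Prop :=
  ∀ V ∈ 𝓝 (0 : E), ∃ U ∈ 𝓝 (0 : E), ∀ c : ℂ, ∀ f ∈ U, ∀ g : Fin q → ℂ → ℂ,
    (∀ j, Differentiable ℂ (g j)) → (∀ j z, ι f j z = (z - c) * g j z) → ∃ y ∈ V, ι y = g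

/-- Condition (3). -/
def Cond3 (ι : E → Fin q → ℂ → ℂ) : Prop :=
  ∀ (n : ℕ) (F : Fin n → E),
    (∀ g : Fin q → ℂ → ℂ, (∀ j, Differentiable ℂ (g j)) →
      (∀ j z, ‖g j z‖ ≤ ∑ m, ‖ι (F m) j z‖) → ∃ y, ι y = g) ∧
    Bornology.IsVonNBounded ℂ {g : E | ∀ j z, ‖ι g j z‖ ≤ ∑ m, ‖ι (F m) j z‖}

/-- `I`, of local rank `k`, is saturated with respect to `f`. -/
def Saturated (ι : E → Fin q → ℂ → ℂ) (I : Submodule ℂ E) (k : ℕ) (f : E) : Prop :=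
  ∀ V ∈ 𝓝 (0 : E), ∀ Φ : ℂ → ℂ, Differentiable ℂ Φ → (∀ z, ‖Φ z‖ₑ ≤ major ι I k f V z) →
    ∃ C : ℝ, ∀ z, ‖Φ z‖ ≤ C

end Pool.Agent.Lib.MP_efa496_an
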