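import Pool.Agent.Lib.MP_efa496_an.Space
import Pool.Agent.Lib.MP_efa496_an.OwnDefs

/-!
A Frechet module of entire functions with a closed divisorial submodule that is not over-saturated.
-/

namespace Pool.Agent.Results.MP_efa496_an.FrechetExample

open Pool.Agent.Lib.MP_efa496_an Filter Topology

attribute [local instance] tau tau_addGroup

lemma basis : (𝓝 (0 : PP)).HasBasis (fun _ : ℕ × ℕ => True)
    fun x => BB x.1 (1 / ((x.2 : ℝ) + 1)) := by
  refine ⟨fun V => mem_nhds_tau.trans ⟨?_, ?_⟩⟩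
  · rintro ⟨n, δ, hδ, h⟩
    obtain ⟨m, hm⟩ := exists_nat_one_div_lt hδ
    exact ⟨(n, m), trivial, (BB_mono le_rfl (by positivity) hm.le).trans h⟩
  · rintro ⟨x, -, h⟩
    exact ⟨_, _, by positivity, h⟩

lemma eval_cont (z : ℂ) : Continuous fun f : PP => (f : ℂ → Fin 3 → ℂ) z := by
  refine continuous_of_continuousAt_zero
    ((LinearMap.proj z : (ℂ → Fin 3 → ℂ) →ₗ[ℂ] Fin 3 → ℂ).comp PP.subtype) ?_
  rw [ContinuousAt, map_zero, tendsto_pi_nhds]
  intro j
  refine Metric.tendsto_nhds.2 fun ε hε => ?_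
  have hw := wt_pos 0 (om j * z)
  filter_upwards [BB_mem_nhds 0 (δ := ε / 2 / wt 0 (om j * z)) (by positivity)] with f hf
  have := hf z j
  rw [div_mul_cancel₀ _ hw.ne'] at this
  simpa using this.trans_lt (half_lt_self hε)

lemma complete : @CompleteSpace PP (IsTopologicalAddGroup.rightUniformSpace PP) := by
  let _ := IsTopologicalAddGroup.rightUniformSpace PP
  refine ⟨fun {F} hF => ?_⟩
  have h0 := hF.1
  have h1 : ∀ n δ, 0 < δ → ∃ A ∈ F, ∀ x ∈ A, ∀ y ∈ A, y - x ∈ BB n δ := fun n δ hδ => by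
    obtain ⟨A, hA, h⟩ := (cauchy_iff.1 hF).2 {x | x.2 - x.1 ∈ BB n δ} (by
      rw [uniformity_eq_comap_nhds_zero']
      exact ⟨_, BB_mem_nhds n hδ, fun x hx => by simpa [sub_eq_add_neg] using hx⟩)
    exact ⟨A, hA, fun x hx y hy => h (Set.mk_mem_prod hx hy)⟩
  have h2 : ∀ z j, ∃ a, Tendsto (fun f : PP => (f : ℂ → Fin 3 → ℂ) z j) F (𝓝 a) := fun z j => by
    refine cauchy_map_iff_exists_tendsto.1 (Metric.cauchy_iff.2 ⟨inferInstance, fun ε hε => ?_⟩)
    have hw := wt_pos 0 (om j * z)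
    obtain ⟨A, hA, h⟩ := h1 0 (ε / 2 / wt 0 (om j * z)) (by positivity)
    refine ⟨_, image_mem_map hA, ?_⟩
    rintro _ ⟨x, hx, rfl⟩ _ ⟨y, hy, rfl⟩
    have := h y hy x hx z j
    rw [div_mul_cancel₀ _ hw.ne'] at this
    rw [dist_eq_norm]
    exact this.trans_lt (half_lt_self hε)
  choose g hg using h2
  have h3 : ∀ n δ, 0 < δ → ∀ᶠ x : PP in F, ∀ z j,
      ‖(x : ℂ → Fin 3 → ℂ) z j - g z j‖ ≤ δ * wt n (om j * z) := fun n δ hδ => by
    obtain ⟨A, hA, h⟩ := h1 n δ hδ
    filter_upwards [hA] with x hx z j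
    refine le_of_tendsto ((tendsto_const_nhds.sub (hg z j)).norm) ?_
    filter_upwards [hA] with y hy using h y hy x hx z j
  have h4 : Differentiable ℂ g := differentiable_pi.2 fun j z => by
    have h5 : TendstoUniformlyOn (fun (f : PP) w => (f : ℂ → Fin 3 → ℂ) w j) (fun w => g w j) F
        (Metric.ball 0 (‖z‖ + 1)) := Metric.tendstoUniformlyOn_iff.2 fun ε hε => by
      have he := Real.exp_pos (2 * (4 * (‖z‖ + 1)))
      filter_upwards [h3 0 (ε / 2 / Real.exp (2 * (4 * (‖z‖ + 1)))) (by positivity)] with x hx w hw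
      rw [dist_comm, dist_eq_norm]
      refine ((hx w j).trans ?_).trans_lt (half_lt_self hε)
      rw [div_mul_eq_mul_div, div_le_iff₀ he]
      refine mul_le_mul_of_nonneg_left ((wt_le_exp 0 _).trans (Real.exp_le_exp.2 ?_)) (by positivity)
      rw [norm_mul]
      have := mul_le_mul (norm_om_le j) (mem_ball_zero_iff.1 hw).le (norm_nonneg _) (by norm_num)
      linarith
    exact (h5.tendstoLocallyUniformlyOn.differentiableOn (Eventually.of_forall fun f =>
      (differentiable_pi.1 f.2.1 j).differentiableOn) Metric.isOpen_ball).differentiableAt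
      (Metric.isOpen_ball.mem_nhds (by simp))
  have h5 : g ∈ PP := ⟨h4, fun n => by
    obtain ⟨x, hx⟩ := (h3 n 1 one_pos).exists
    obtain ⟨C, hC, h⟩ := x.2.2 n
    refine ⟨C + 1, by positivity, fun z j => ?_⟩
    have := norm_sub_norm_le (g z j) ((x : ℂ → Fin 3 → ℂ) z j)
    rw [norm_sub_rev] at this
    linarith [hx z j, h z j]⟩
  refine ⟨⟨g, h5⟩, fun V hV => ?_⟩
  rw [← nhds_translation_sub] at hV
  obtain ⟨W, hW, h⟩ := hV
  obtain ⟨n, δ, hδ, hW'⟩ := mem_nhds_tau.1 hW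
  filter_upwards [h3 n δ hδ] with x hx using h (hW' hx)

/-- The components of an element of the module. -/
abbrev io (f : PP) (j : Fin 3) (z : ℂ) : ℂ := f.1 z j

/-- The submodule. -/
noncomputable abbrev JJ : Submodule ℂ PP := II.comap PP.subtype

lemma germ_ex (c : ℂ) (f : PP) : ∃ γ, IsGerm c (io f) γ :=
  ⟨fun j => ⟨_, _, (differentiable_pi.1 f.2.1 j).analyticAt c, rfl⟩, fun _ => rfl⟩

lemma divisorial : Divisorial io JJ := by
  refine fun f => ⟨fun hf c => ?_, fun h => ⟨f.2, fun z j hz => ?_⟩⟩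
  · obtain ⟨γ, h⟩ := germ_ex c f
    exact ⟨γ, Submodule.subset_span ⟨f, hf, h⟩, h⟩
  obtain ⟨γ, h1, h2⟩ := h z
  have h3 : Germ.value (γ j : Germ (𝓝 z) ℂ) = 0 := by
    clear h2
    induction h1 using Submodule.span_induction with
    | mem γ h =>
      obtain ⟨u, hu, h⟩ := h
      rw [h j]
      exact hu.2 z j hz
    | zero => rfl
    | add a b _ _ ha hb =>
      exact (map_add Germ.valueRingHom (a j : Germ (𝓝 z) ℂ) (b j)).trans
        (by rw [← add_zero (0 : ℂ)]; exact congrArg₂ _ ha hb)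
    | smul a b _ hb =>
      exact (map_mul Germ.valueRingHom (a : Germ (𝓝 z) ℂ) (b j)).trans
        (mul_eq_zero_of_right _ hb)
  rwa [h2 j] at h3

lemma rank : LocalRank io JJ 3 := by
  have h1 : ∀ c, Module.rank (OGerm c) (Loc io JJ c) ≤ 3 := fun c =>
    (Submodule.rank_le _).trans (by simp)
  refine ⟨⟨0, le_antisymm (h1 0) ?_⟩, by rintro _ ⟨c, rfl⟩; exact h1 c⟩
  choose γ hγ using fun s => germ_ex 0 ⟨_, (gen_mem s).1⟩
  have h2 : LinearIndependent (OGerm 0) fun s =>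
      (⟨γ s, Submodule.subset_span ⟨_, gen_mem s, hγ s⟩⟩ : Loc io JJ 0) := by
    refine Fintype.linearIndependent_iff.2 fun a ha j => ?_
    have h3 := congrArg (fun x : Loc io JJ 0 => (x.1 j).1) ha
    simp only [AddSubmonoidClass.coe_finsetSum, SetLike.val_smul, Finset.sum_apply, Pi.smul_apply,
      smul_eq_mul, MulMemClass.coe_mul, hγ _ j, ZeroMemClass.coe_zero, Pi.zero_apply] at h3
    rw [Finset.sum_eq_single j (fun s _ hs => by
      rw [show io ⟨_, (gen_mem s).1⟩ j = 0 from funext fun z => if_neg hs.symm]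
      exact mul_zero _) (by simp)] at h3
    obtain ⟨h, -, e⟩ := (a j).2
    refine Subtype.ext (e.trans (Germ.coe_eq.2 ?_))
    rw [e] at h3
    have h4 : ∀ᶠ w in 𝓝 (0 : ℂ), EE (om j * w) ≠ 0 :=
      (EE_diff.continuous.comp (continuous_const.mul continuous_id)).continuousAt.eventually_ne
        (by simp [EE_zero])
    filter_upwards [Germ.coe_eq.1 h3, h4] with w h5 h6
    simpa [io, gen, h6] using h5
  simpa using h2.cardinal_le_rank

theorem result : ∃ (E : Type) (_ : AddCommGroup E) (_ : Module ℂ E) (_ : UniformSpace E)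
    (ι : E → Fin 3 → ℂ → ℂ), IsUniformAddGroup E ∧ ContinuousSMul ℂ E ∧ T2Space E ∧
    LocallyConvexSpace ℝ E ∧ FirstCountableTopology E ∧ CompleteSpace E ∧
    Emb ι ∧ ContOps ι ∧ UnifStable ι ∧ Cond3 ι ∧
    ∃ I : Submodule ℂ E, PolyStable ι I ∧ IsClosed (I : Set E) ∧
      Divisorial ι I ∧ LocalRank ι I 3 ∧ ∃ f : E, ¬ Saturated ι I 3 f := by
  refine ⟨PP, inferInstance, inferInstance, IsTopologicalAddGroup.rightUniformSpace PP, io,
    isUniformAddGroup_of_addCommGroup, tau_smul, tau_t2, ?_, ?_, complete,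
    ⟨fun f g h => Subtype.ext (funext₂ fun z j => congrFun₂ h j z), fun _ _ _ _ => rfl,
      fun _ _ _ _ => rfl, fun f j => differentiable_pi.1 f.2.1 j⟩,
    ⟨fun j z => (continuous_apply j).comp (eval_cont z), fun p =>
      ⟨fun f => ⟨_, poly_smul_mem p f f.2⟩, poly_smul_cont p _ fun _ => rfl, fun _ _ _ => rfl⟩⟩,
    ?_, fun n F => ⟨fun g hg hb => ⟨⟨fun z j => g j z, differentiable_pi.2 hg, fun m => ?_⟩, rfl⟩,
      ?_⟩, JJ, fun p f hf => ⟨⟨_, poly_smul_mem p f f.2⟩, ⟨poly_smul_mem p f f.2, fun z j h =>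
        mul_eq_zero_of_right _ (hf.2 z j h)⟩, fun _ _ => rfl⟩, ?_, divisorial, rank,
    ⟨_, one_mem⟩, fun H => ?_⟩
  · refine LocallyConvexSpace.ofBasisZero ℝ PP _ _ basis fun x _ u hu v hv a b ha hb e => ?_
    have := add_mem_BB (smul_mem_BB (c := (a : ℂ)) (ε := a * (1 / ((x.2 : ℝ) + 1))) hu
      (by simp [abs_of_nonneg ha])) (smul_mem_BB (c := (b : ℂ)) (ε := b * (1 / ((x.2 : ℝ) + 1))) hv
      (by simp [abs_of_nonneg hb]))
    rwa [← add_mul, e, one_mul] at this
  · have := basis.isCountablyGenerated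
    exact ⟨fun x => by rw [← nhds_translation_sub]; infer_instance⟩
  · intro V hV
    obtain ⟨n, δ, hδ, hV⟩ := mem_nhds_tau.mp hV
    have he := Real.exp_pos 16
    refine ⟨_, BB_mem_nhds n (div_pos hδ he), fun c x hx g hg hxg => ?_⟩
    have hg' := differentiable_pi.2 hg
    have hx' : ∀ w, x.1 w = (w - c) • fun j => g j w := fun w => funext fun j => hxg j w
    refine ⟨⟨_, hg', fun m => ?_⟩, hV fun z j => ?_, rfl⟩
    · obtain ⟨C, hC, hb⟩ := x.2.2 m
      exact ⟨C * Real.exp 16, mul_pos hC he, div_bound_vec hg' c hx' hC.le hb⟩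
    · have := div_bound_vec hg' c hx' (div_pos hδ he).le hx z j
      rwa [div_mul_cancel₀ _ he.ne'] at this
  · obtain ⟨C, hC, hs⟩ := sum_bound F m
    exact ⟨C, hC, fun z j => (hb j z).trans (hs z j)⟩
  · intro V hV
    obtain ⟨m, δ, hδ, hV⟩ := mem_nhds_tau.mp hV
    obtain ⟨C, hC, hs⟩ := sum_bound F m
    refine Absorbs.of_norm ⟨C / δ, fun a ha x hx => ?_⟩
    have ha0 : 0 < ‖a‖ := lt_of_lt_of_le (div_pos hC hδ) ha
    refine ⟨a⁻¹ • x, hV (smul_mem_BB (δ := C) (fun z j => (hx j z).trans (hs z j)) ?_),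
      smul_inv_smul₀ (norm_pos_iff.mp ha0) x⟩
    rw [norm_inv, inv_mul_le_iff₀ ha0]
    rwa [div_le_iff₀ hδ] at ha
  · have : (JJ : Set PP) =
        ⋂ z, ⋂ j, ⋂ _ : EE (om j * z) = 0, {f : PP | (f : ℂ → Fin 3 → ℂ) z j = 0} := by
      ext f
      simp only [Set.mem_ofPred_eq, Set.mem_iInter]
      exact ⟨fun h => h.2, fun h => ⟨f.2, h⟩⟩
    rw [this]
    exact isClosed_iInter fun z => isClosed_iInter fun j => isClosed_iInter fun _ =>
      isClosed_eq ((continuous_apply j).comp (eval_cont z)) continuous_const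
  obtain ⟨C, hC⟩ := H (BB 15 (1 / 4)) (BB_mem_nhds 15 (by norm_num))
    (fun z => Complex.exp (z / 4)) (by fun_prop) fun z => by
      rw [← ofReal_norm, Complex.norm_exp, show (z / 4).re = z.re / 4 by simp]
      by_cases hz : 0 ≤ z.re
      swap
      · exact le_add_right (ENNReal.ofReal_le_one.2 (Real.exp_le_one_iff.mpr (by linarith)))
      refine le_add_left (le_iInf fun u => le_iInf fun J => le_iInf fun ⟨h1, hJ, h2⟩ => ?_)
      obtain ⟨j, hj⟩ := small_row z hz
      obtain ⟨r, hr⟩ := Finite.injective_iff_surjective.mp hJ.injective j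
      have h := cramer_bound _ h2 r (t := Real.exp (-(z.re / 4))) fun s => by
        simp only [mat, Matrix.of_apply, hr]
        exact hj (u s) (h1 s).1 (h1 s).2
      have h3 := mul_le_mul_of_nonneg_left h (Real.exp_pos (z.re / 4)).le
      rw [← mul_assoc, ← Real.exp_add, add_neg_cancel, Real.exp_zero, one_mul, mul_one] at h3
      simp only [← ofReal_norm]
      rw [← ENNReal.ofReal_sum_of_nonneg fun _ _ => norm_nonneg _]
      exact ENNReal.ofReal_le_ofReal h3
  have h := hC ((4 * C : ℝ) : ℂ)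
  rw [Complex.norm_exp, show (((4 * C : ℝ) : ℂ) / 4).re = C by simp] at h
  linarith [Real.add_one_le_exp C]

end Pool.Agent.Results.MP_efa496_an.FrechetExample
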