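import Pool.Agent.Results.MP_efa496_an.EveryRank
import Pool.Agent.Lib.MP_efa496_an.FrechetExample
import Pool.Agent.Lib.MP_efa496_an.ExpTypeExample

/-! The theorem for every local rank implies the two earlier examples word for word. -/

namespace Pool.Agent.Lib.MP_efa496_an.Implies

open Pool.Agent.Results.MP_efa496_an

theorem expType : type_of% @ExpTypeExample.result := EveryRank.result 5 5 (by norm_num) le_rfl

theorem frechet : type_of% @FrechetExample.result := by
  obtain ⟨E, a, b, c, ι, h1, h2, h3, h4, h5, h6, h7, -, h8, h9, h10, -, h11⟩ :=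
    EveryRank.result 3 3 (by norm_num) le_rfl
  exact ⟨E, a, b, c, ι, h1, h2, h3, h4, h5, h6, h7, h8, h9, h10, h11⟩

end Pool.Agent.Lib.MP_efa496_an.Implies
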