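import Pool.Agent.Lib.MP_efa496_an.Disc

/-! Decay of functions of exponential type that vanish on the zeros of the hyperbolic cosine. -/

set_option autoImplicit false

namespace Pool.Agent.Lib.MP_efa496_an

open Complex Filter Topology Set

/-- Twice the hyperbolic cosine. -/
noncomputable def CH (z : ℂ) : ℂ := exp z + exp (-z)

lemma CH_diff : Differentiable ℂ CH := by
  unfold CH
  fun_prop

lemma CH_zero : CH 0 = 2 := by
  simp [CH]
  norm_num

lemma CH_neg (z : ℂ) : CH (-z) = CH z := by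
  rw [CH, CH, neg_neg, add_comm]

lemma deriv_CH_ne {z : ℂ} (h : CH z = 0) : deriv CH z ≠ 0 := by
  have h1 : HasDerivAt CH (exp z + exp (-z) * (-1)) z :=
    (Complex.hasDerivAt_exp z).add (hasDerivAt_neg z).cexp
  rw [h1.deriv]
  intro h2
  unfold CH at h
  exact Complex.exp_ne_zero z (by linear_combination (h + h2) / 2)

lemma norm_CH_le (z : ℂ) : ‖CH z‖ ≤ 2 * Real.exp |z.re| := by
  have a1 : ‖exp z‖ ≤ Real.exp |z.re| := by
    rw [Complex.norm_exp]
    exact Real.exp_le_exp.2 (le_abs_self _)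
  have a2 : ‖exp (-z)‖ ≤ Real.exp |z.re| := by
    rw [Complex.norm_exp]
    exact Real.exp_le_exp.2 (neg_le_abs _)
  unfold CH
  linarith [norm_add_le (exp z) (exp (-z))]

lemma half_le_add {a b : ℂ} (h : b.re + 1 ≤ a.re) : Real.exp a.re / 2 ≤ ‖exp a + exp b‖ := by
  have h1 := norm_sub_le (exp a + exp b) (exp b)
  rw [add_sub_cancel_right, Complex.norm_exp, Complex.norm_exp] at h1
  have h2 : Real.exp b.re * Real.exp 1 ≤ Real.exp a.re := by
    rw [← Real.exp_add]
    exact Real.exp_le_exp.2 h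
  have h3 := Real.add_one_le_exp 1
  have h4 := Real.exp_pos b.re
  nlinarith

lemma CH_lower {z : ℂ} (h : |z.im| ≤ |z.re|) : Real.exp |z.re| / 2 ≤ ‖CH z‖ := by
  wlog h0 : 0 ≤ z.re generalizing z
  · have := this (z := -z) (by simpa using h) (by simp; linarith)
    rwa [CH_neg, neg_re, abs_neg] at this
  rw [abs_of_nonneg h0] at h ⊢
  by_cases h1 : 1 / 2 ≤ z.re
  · exact half_le_add (by simp; linarith)
  refine le_trans ?_ (Complex.re_le_norm _)
  rw [CH, add_re, Complex.exp_re, Complex.exp_re, neg_im, Real.cos_neg]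
  have h2 := Real.one_sub_sq_div_two_le_cos (x := z.im)
  have h3 : z.im ^ 2 ≤ 1 := by
    rw [← sq_abs]
    nlinarith [abs_nonneg z.im]
  have h4 := Real.exp_pos z.re
  have h5 := Real.exp_pos (-z).re
  nlinarith

lemma quot_growthC {g h : ℂ → ℂ} (hh : Differentiable ℂ h) (hgh : ∀ z, g z = CH z * h z)
    {δ : ℝ} (hδ : 0 ≤ δ) (hb : ∀ z, ‖g z‖ ≤ δ * Real.exp (2 * ‖z‖)) (w : ℂ) :
    ‖h w‖ ≤ 2 * δ * Real.exp 48 * Real.exp (97 * ‖w‖) := by
  have key := quot_growth' (g := fun ζ => g ((1 + I) * ζ / 2))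
    (h := fun ζ => exp (ζ - (1 + I) * ζ / 2) * h ((1 + I) * ζ / 2)) (by fun_prop) (fun ζ => by
      rw [hgh, EE_factor, ← mul_assoc, CH]
      congr 1
      simp only [mul_add, add_mul, mul_one, ← Complex.exp_add]
      rw [add_comm]
      congr 2 <;> ring) hδ (fun ζ => (hb _).trans (by
        have : ‖(1 + I) * ζ / 2‖ ≤ ‖ζ‖ := by
          rw [norm_div, norm_mul, div_le_iff₀ (by simp)]
          simp only [Complex.norm_ofNat]
          nlinarith [norm_one_add_I_le, norm_nonneg ζ]
        gcongr)) ((1 - I) * w)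
  have e : (1 + I) * ((1 - I) * w) / 2 = w := by
    linear_combination (-w / 2) * I_sq
  simp only [e] at key
  have e1 : ‖h w‖ = ‖exp (I * w)‖ * ‖exp ((1 - I) * w - w) * h w‖ := by
    rw [← norm_mul, ← mul_assoc, ← Complex.exp_add, show I * w + ((1 - I) * w - w) = 0 by ring]
    simp
  have a1 : ‖exp (I * w)‖ ≤ Real.exp ‖w‖ := by
    simpa using Complex.norm_exp_le_exp_norm (I * w)
  have a2 : ‖(1 - I) * w‖ ≤ 2 * ‖w‖ := by
    rw [norm_mul]
    refine mul_le_mul_of_nonneg_right ?_ (norm_nonneg _)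
    have := norm_sub_le (1 : ℂ) I
    simp only [norm_one, norm_I] at this
    linarith
  rw [e1]
  refine (mul_le_mul a1 key (norm_nonneg _) (Real.exp_pos _).le).trans ?_
  rw [mul_left_comm, ← Real.exp_add]
  gcongr
  linarith

/-- The Phragmen-Lindelof principle in a sector of opening less than a half-plane. -/
lemma pl_sector {F : ℂ → ℂ} (hF : Differentiable ℂ F) {A B C s : ℝ}
    (hg : ∀ z, ‖F z‖ ≤ A * Real.exp (B * ‖z‖)) (hB : 0 ≤ B) (h0 : 0 < s) (h1 : s ≤ 1)
    (hb : ∀ z : ℂ, z.im = s * ‖z‖ → ‖F z‖ ≤ C) {z : ℂ} (hz : s * ‖z‖ ≤ z.im) : ‖F z‖ ≤ C := by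
  by_cases hz0 : z = 0
  · exact hb z (by simp [hz0])
  have ha : 0 < Real.arcsin s := Real.arcsin_pos.2 h0
  have ha' := Real.arcsin_le_pi_div_two s
  have hs : Real.sin (Real.arcsin s) = s := Real.sin_arcsin (by linarith) h1
  have hpi := Real.pi_pos
  have hn : 0 < ‖z‖ := norm_pos_iff.2 hz0
  have hsin : s ≤ Real.sin (arg z) := by
    rw [Complex.sin_arg, le_div_iff₀ hn]
    exact hz
  have hp : 0 ≤ arg z := Complex.arg_nonneg_iff.2 (le_trans (by positivity) hz)
  have hq := Complex.arg_le_pi z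
  have k : ∀ t : ℝ, 0 ≤ t → s ≤ Real.sin t → Real.arcsin s ≤ t := fun t t0 ht => by
    by_cases h : t ≤ Real.pi / 2
    · rw [← Real.arcsin_sin (x := t) (by linarith) h]
      exact Real.arcsin_le_arcsin ht
    · linarith
  rw [← Complex.exp_log hz0]
  by_cases hab : Real.pi - Real.arcsin s = Real.arcsin s
  · refine hb _ ?_
    have e : arg z = Real.arcsin s := le_antisymm (by
      have := k (Real.pi - arg z) (by linarith) (by rwa [Real.sin_pi_sub])
      linarith) (k _ hp hsin)
    rw [Complex.exp_im, Complex.norm_exp, Complex.log_im, e, hs, mul_comm]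
  refine PhragmenLindelof.horizontal_strip (f := fun w => F (exp w)) (a := Real.arcsin s)
    (b := Real.pi - Real.arcsin s) (hF.comp differentiable_exp).diffContOnCl ⟨1, ?_, B, ?_⟩
    (fun w hw => hb _ ?_) (fun w hw => hb _ ?_) (Complex.log_im z ▸ k _ hp hsin) ?_
  · have : 0 < Real.pi - Real.arcsin s - Real.arcsin s :=
      sub_pos.2 (lt_of_le_of_ne (by linarith) (Ne.symm hab))
    rw [lt_div_iff₀ this]
    linarith
  · refine Asymptotics.IsBigO.of_bound |A| (Eventually.of_forall fun w => ?_)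
    rw [Real.norm_eq_abs, Real.abs_exp, one_mul]
    refine (hg _).trans (mul_le_mul (le_abs_self _) ?_ (Real.exp_pos _).le (abs_nonneg _))
    rw [Complex.norm_exp]
    gcongr
    exact le_abs_self _
  · rw [Complex.exp_im, Complex.norm_exp, hw, hs, mul_comm]
  · rw [Complex.exp_im, Complex.norm_exp, hw, Real.sin_pi_sub, hs, mul_comm]
  · have := k (Real.pi - arg z) (by linarith) (by rwa [Real.sin_pi_sub])
    rw [Complex.log_im]
    linarith

/-- Decay in a sector around the positive imaginary axis. -/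
lemma decayC {g : ℂ → ℂ} (hg : Differentiable ℂ g) (hz : ∀ c, CH c = 0 → g c = 0)
    {δ : ℝ} (hδ : 0 ≤ δ) (hb : ∀ z, ‖g z‖ ≤ δ * Real.exp (101 / 100 * ‖z‖))
    {z : ℂ} (h : 7 / 25 * ‖z‖ ≤ z.im) :
    ‖g z‖ ≤ 4 * δ * Real.exp (|z.re| + 5 / 28 * z.im) := by
  obtain ⟨v, hv, hgv⟩ := exists_div hg CH_diff (fun c hc => deriv_CH_ne hc) hz
  have hn : ∀ w : ℂ, ‖v w * exp (5 / 28 * (I * w))‖ = ‖v w‖ * Real.exp (-(5 / 28 * w.im)) :=
    fun w => by
      rw [norm_mul, Complex.norm_exp]
      congr 2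
      simp
  have key : ‖v z * exp (5 / 28 * (I * z))‖ ≤ 2 * δ := by
    refine pl_sector (F := fun w => v w * exp (5 / 28 * (I * w))) (by fun_prop)
      (A := 2 * δ * Real.exp 48) (B := 98) (s := 7 / 25) (fun w => ?_) (by norm_num)
      (by norm_num) (by norm_num) (fun w hw => ?_) h
    · have a1 := quot_growthC hv hgv hδ (fun w => (hb w).trans (by gcongr; norm_num)) w
      have a2 : Real.exp (-(5 / 28 * w.im)) ≤ Real.exp ‖w‖ := Real.exp_le_exp.2 (by
        have := neg_le_abs w.im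
        have := Complex.abs_im_le_norm w
        have := norm_nonneg w
        linarith)
      rw [hn]
      refine (mul_le_mul a1 a2 (Real.exp_pos _).le (by positivity)).trans_eq ?_
      rw [mul_assoc _ (Real.exp _), ← Real.exp_add]
      congr 2
      ring
    · have n0 := norm_nonneg w
      have a1 : 24 / 25 * ‖w‖ ≤ |w.re| := by
        refine le_of_sq_le_sq ?_ (abs_nonneg _)
        have e := Complex.sq_norm w
        rw [Complex.normSq_apply, hw] at e
        rw [sq_abs]
        nlinarith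
      have a2 := CH_lower (z := w) (by rw [hw, abs_of_nonneg (by positivity)]; linarith)
      have a3 := hb w
      rw [hgv, norm_mul] at a3
      have a4 : Real.exp (101 / 100 * ‖w‖) ≤ Real.exp |w.re| * Real.exp (5 / 28 * w.im) := by
        rw [← Real.exp_add]
        exact Real.exp_le_exp.2 (by linarith)
      rw [hn, Real.exp_neg, ← div_eq_mul_inv, div_le_iff₀ (Real.exp_pos _)]
      refine le_of_mul_le_mul_left ?_ (half_pos (Real.exp_pos |w.re|))
      have a5 := mul_le_mul_of_nonneg_right a2 (norm_nonneg (v w))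
      have a6 := mul_le_mul_of_nonneg_left a4 hδ
      linarith
  rw [hn, Real.exp_neg, ← div_eq_mul_inv, div_le_iff₀ (Real.exp_pos _)] at key
  rw [hgv z, norm_mul, Real.exp_add]
  exact (mul_le_mul (norm_CH_le z) key (norm_nonneg _) (by positivity)).trans_eq (by ring)

end Pool.Agent.Lib.MP_efa496_an
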