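import Mathlib

-- part Pool.Agent.Lib.MP_efa496_an.Scalar
section

/-!
Scalar estimates for the counterexample to over-saturation (problem MP_efa496_an).
-/

set_option autoImplicit false

namespace Pool.Agent.Lib.MP_efa496_an

open Complex Filter Topology Set

/-- The weight `exp (|z| / (n+1) + max (0, -Re z, -Im z))`. -/
noncomputable def wt (n : ℕ) (ζ : ℂ) : ℝ :=
  Real.exp (‖ζ‖ / (n + 1) + max 0 (max (-ζ.re) (-ζ.im)))

/-- The generator `exp (i z) + exp (-z)`. -/
noncomputable def EE (ζ : ℂ) : ℂ := exp (I * ζ) + exp (-ζ)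

lemma wt_pos (n : ℕ) (ζ : ℂ) : 0 < wt n ζ := Real.exp_pos _

lemma one_le_wt (n : ℕ) (ζ : ℂ) : 1 ≤ wt n ζ := by
  unfold wt
  apply Real.one_le_exp
  have h1 : 0 ≤ ‖ζ‖ / ((n : ℝ) + 1) := by positivity
  have h2 : 0 ≤ max 0 (max (-ζ.re) (-ζ.im)) := le_max_left _ _
  linarith

lemma wt_anti {n m : ℕ} (h : n ≤ m) (ζ : ℂ) : wt m ζ ≤ wt n ζ := by
  unfold wt
  apply Real.exp_le_exp.mpr
  have : ‖ζ‖ / ((m : ℝ) + 1) ≤ ‖ζ‖ / ((n : ℝ) + 1) := by
    apply div_le_div_of_nonneg_left (norm_nonneg _) (by positivity)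
    have : (n : ℝ) ≤ m := by exact_mod_cast h
    linarith
  linarith

lemma wt_le_exp (n : ℕ) (ζ : ℂ) : wt n ζ ≤ Real.exp (2 * ‖ζ‖) := by
  unfold wt
  apply Real.exp_le_exp.mpr
  have h1 : ‖ζ‖ / ((n : ℝ) + 1) ≤ ‖ζ‖ := by
    apply div_le_self (norm_nonneg _)
    have : (0 : ℝ) ≤ n := Nat.cast_nonneg n
    linarith
  have h2 : -ζ.re ≤ ‖ζ‖ := (neg_le_abs _).trans (Complex.abs_re_le_norm ζ)
  have h3 : -ζ.im ≤ ‖ζ‖ := (neg_le_abs _).trans (Complex.abs_im_le_norm ζ)
  have h4 : max 0 (max (-ζ.re) (-ζ.im)) ≤ ‖ζ‖ := max_le (norm_nonneg _) (max_le h2 h3)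
  linarith

lemma wt_lip (n : ℕ) (a b : ℂ) : wt n a ≤ Real.exp (2 * ‖a - b‖) * wt n b := by
  unfold wt
  rw [← Real.exp_add]
  apply Real.exp_le_exp.mpr
  have hn : (1 : ℝ) ≤ (n : ℝ) + 1 := by
    have : (0 : ℝ) ≤ n := Nat.cast_nonneg n
    linarith
  have h0 : ‖a‖ ≤ ‖a - b‖ + ‖b‖ := by
    have := norm_add_le (a - b) b
    simpa using this
  have h1 : ‖a‖ / ((n : ℝ) + 1) ≤ ‖a - b‖ + ‖b‖ / ((n : ℝ) + 1) := by
    calc ‖a‖ / ((n : ℝ) + 1) ≤ (‖a - b‖ + ‖b‖) / ((n : ℝ) + 1) := by gcongr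
      _ = ‖a - b‖ / ((n : ℝ) + 1) + ‖b‖ / ((n : ℝ) + 1) := by ring
      _ ≤ _ := by
        have := div_le_self (norm_nonneg (a - b)) hn
        linarith
  have h2 : -a.re ≤ ‖a - b‖ + -b.re := by
    have h := (neg_le_abs _).trans (Complex.abs_re_le_norm (a - b))
    simp only [sub_re] at h
    linarith
  have h3 : -a.im ≤ ‖a - b‖ + -b.im := by
    have h := (neg_le_abs _).trans (Complex.abs_im_le_norm (a - b))
    simp only [sub_im] at h
    linarith
  have h4 : max 0 (max (-a.re) (-a.im)) ≤ ‖a - b‖ + max 0 (max (-b.re) (-b.im)) := by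
    have e1 : 0 ≤ max 0 (max (-b.re) (-b.im)) := le_max_left _ _
    have e2 : -b.re ≤ max 0 (max (-b.re) (-b.im)) := (le_max_left _ _).trans (le_max_right _ _)
    have e3 : -b.im ≤ max 0 (max (-b.re) (-b.im)) := (le_max_right _ _).trans (le_max_right _ _)
    have e4 := norm_nonneg (a - b)
    refine max_le (by linarith) (max_le (by linarith) (by linarith))
  linarith

lemma EE_diff : Differentiable ℂ EE := by
  unfold EE
  fun_prop

lemma norm_EE_le (ζ : ℂ) : ‖EE ζ‖ ≤ Real.exp (-ζ.im) + Real.exp (-ζ.re) := by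
  unfold EE
  refine (norm_add_le _ _).trans ?_
  rw [Complex.norm_exp, Complex.norm_exp]
  simp

lemma norm_EE_le_wt (n : ℕ) (ζ : ℂ) : ‖EE ζ‖ ≤ 2 * wt n ζ := by
  refine (norm_EE_le ζ).trans ?_
  unfold wt
  have h1 : 0 ≤ ‖ζ‖ / ((n : ℝ) + 1) := by positivity
  have e2 : -ζ.re ≤ max 0 (max (-ζ.re) (-ζ.im)) := (le_max_left _ _).trans (le_max_right _ _)
  have e3 : -ζ.im ≤ max 0 (max (-ζ.re) (-ζ.im)) := (le_max_right _ _).trans (le_max_right _ _)
  have a1 : Real.exp (-ζ.im) ≤ Real.exp (‖ζ‖ / (n + 1) + max 0 (max (-ζ.re) (-ζ.im))) :=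
    Real.exp_le_exp.mpr (by linarith)
  have a2 : Real.exp (-ζ.re) ≤ Real.exp (‖ζ‖ / (n + 1) + max 0 (max (-ζ.re) (-ζ.im))) :=
    Real.exp_le_exp.mpr (by linarith)
  linarith

lemma EE_zero : EE 0 = 2 := by
  unfold EE
  simp
  norm_num

lemma EE_factor (ζ : ℂ) : EE ζ = exp (-ζ) * (1 + exp ((1 + I) * ζ)) := by
  unfold EE
  rw [mul_add, mul_one, ← Complex.exp_add]
  rw [add_comm]
  congr 2
  ring

lemma EE_hasDerivAt (ζ : ℂ) : HasDerivAt EE (exp (I * ζ) * I + exp (-ζ) * (-1)) ζ := by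
  unfold EE
  have h1 : HasDerivAt (fun z : ℂ => I * z) I ζ := by simpa using (hasDerivAt_id ζ).const_mul I
  have h2 : HasDerivAt (fun z : ℂ => -z) (-1) ζ := hasDerivAt_neg ζ
  exact h1.cexp.add h2.cexp

lemma deriv_EE_ne {ζ : ℂ} (h : EE ζ = 0) : deriv EE ζ ≠ 0 := by
  rw [(EE_hasDerivAt ζ).deriv]
  have h1 : exp (I * ζ) = - exp (-ζ) := by
    unfold EE at h
    linear_combination h
  rw [h1]
  have h2 : -exp (-ζ) * I + exp (-ζ) * (-1) = - (exp (-ζ) * (1 + I)) := by ring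
  rw [h2]
  apply neg_ne_zero.mpr
  apply mul_ne_zero (Complex.exp_ne_zero _)
  intro h3
  have := congrArg Complex.re h3
  simp at this

/-- Division of an entire function by an entire function with simple zeros. -/
lemma exists_div {g E : ℂ → ℂ} (hg : Differentiable ℂ g) (hE : Differentiable ℂ E)
    (hs : ∀ c, E c = 0 → deriv E c ≠ 0) (hz : ∀ c, E c = 0 → g c = 0) :
    ∃ h : ℂ → ℂ, Differentiable ℂ h ∧ ∀ z, g z = E z * h z := by
  classical
  refine ⟨fun z => if E z = 0 then deriv g z / deriv E z else g z / E z, ?_, ?_⟩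
  · intro c
    by_cases hc : E c = 0
    · have dg : Differentiable ℂ (dslope g c) := by
        rw [← differentiableOn_univ]
        exact (Complex.differentiableOn_dslope (Filter.univ_mem)).mpr hg.differentiableOn
      have dE : Differentiable ℂ (dslope E c) := by
        rw [← differentiableOn_univ]
        exact (Complex.differentiableOn_dslope (Filter.univ_mem)).mpr hE.differentiableOn
      have hne : dslope E c c ≠ 0 := by
        rw [dslope_same]
        exact hs c hc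
      have hev : ∀ᶠ z in 𝓝 c, dslope E c z ≠ 0 := dE.continuous.continuousAt.eventually_ne hne
      have hd : DifferentiableAt ℂ (fun z => dslope g c z / dslope E c z) c :=
        (dg c).div (dE c) hne
      refine hd.congr_of_eventuallyEq ?_
      filter_upwards [hev] with z hz'
      by_cases hzc : z = c
      · subst hzc
        simp [hc, dslope_same]
      · have e1 : (z - c) * dslope E c z = E z := by
          have := sub_smul_dslope E c z
          rw [hc, sub_zero] at this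
          simpa using this
        have e2 : (z - c) * dslope g c z = g z := by
          have := sub_smul_dslope g c z
          rw [hz c hc, sub_zero] at this
          simpa using this
        have hzc' : z - c ≠ 0 := sub_ne_zero.mpr hzc
        have e3 : E z ≠ 0 := by
          rw [← e1]
          exact mul_ne_zero hzc' hz'
        simp only [e3, if_false]
        rw [← e1, ← e2]
        field_simp
    · have hev : ∀ᶠ z in 𝓝 c, E z ≠ 0 := hE.continuous.continuousAt.eventually_ne hc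
      have hd : DifferentiableAt ℂ (fun z => g z / E z) c := (hg c).div (hE c) hc
      refine hd.congr_of_eventuallyEq ?_
      filter_upwards [hev] with z hz'
      simp [hz']
  · intro z
    by_cases hc : E z = 0
    · simp [hc, hz z hc]
    · simp only [hc, if_false]
      field_simp

lemma half_le_aux (x : ℝ) (hx : 0 ≤ x) : 1 / 2 ≤ 1 + Real.exp (-x) * Real.cos x := by
  by_cases h : x ≤ Real.pi / 2
  · have h1 : 0 ≤ Real.cos x :=
      Real.cos_nonneg_of_neg_pi_div_two_le_of_le (by linarith [Real.pi_pos]) h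
    have h2 : 0 ≤ Real.exp (-x) * Real.cos x := mul_nonneg (Real.exp_pos _).le h1
    linarith
  · push Not at h
    have h1 : 1 ≤ x := by linarith [Real.pi_gt_three]
    have h2 : Real.exp (-x) ≤ 1 / 2 := by
      have h3 : 2 ≤ Real.exp x := by
        have := Real.add_one_le_exp x
        linarith
      rw [Real.exp_neg]
      rw [inv_eq_one_div]
      exact one_div_le_one_div_of_le (by norm_num) h3
    have h4 : -1 ≤ Real.cos x := Real.neg_one_le_cos x
    have h5 := Real.exp_pos (-x)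
    nlinarith

lemma EE_real (x : ℝ) (hx : 0 ≤ x) : 1 / 2 ≤ ‖EE x‖ := by
  have h1 : EE x = exp (I * x) * (1 + exp (-x) * exp (-(I * x))) := by
    unfold EE
    rw [mul_add, mul_one, mul_comm (exp (-x)), ← mul_assoc, ← Complex.exp_add]
    simp
  rw [h1, norm_mul, Complex.norm_exp]
  have h2 : (I * (x : ℂ)).re = 0 := by simp
  rw [h2, Real.exp_zero, one_mul]
  refine le_trans ?_ (Complex.re_le_norm _)
  have h3 : (1 + exp (-(x : ℂ)) * exp (-(I * x))).re = 1 + Real.exp (-x) * Real.cos x := by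
    rw [← Complex.exp_add, add_re, Complex.exp_re]
    simp
  rw [h3]
  exact half_le_aux x hx

lemma EE_imag (x : ℝ) (hx : 0 ≤ x) : 1 / 2 ≤ ‖EE (x * I)‖ := by
  have h1 : EE (x * I) = exp (-(x * I)) * (1 + exp (-x) * exp (x * I)) := by
    unfold EE
    have : I * ((x : ℂ) * I) = -x := by
      rw [mul_comm (x : ℂ), ← mul_assoc, I_mul_I]; ring
    rw [this, mul_add, mul_one, mul_comm (exp (-x)), ← mul_assoc, ← Complex.exp_add]
    simp [add_comm]
  rw [h1, norm_mul, Complex.norm_exp]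
  have h2 : (-((x : ℂ) * I)).re = 0 := by simp
  rw [h2, Real.exp_zero, one_mul]
  refine le_trans ?_ (Complex.re_le_norm _)
  have h3 : (1 + exp (-(x : ℂ)) * exp (x * I)).re = 1 + Real.exp (-x) * Real.cos x := by
    rw [← Complex.exp_add, add_re, Complex.exp_re]
    simp
  rw [h3]
  exact half_le_aux x hx

lemma half_le_frontier (N : ℕ) (hN : 1 ≤ N) (s : ℂ)
    (hs : s ∈ frontier (Ioo (-(N : ℝ)) N ×ℂ Ioo (-(2 * Real.pi * N)) (2 * Real.pi * N))) :
    1 / 2 ≤ ‖1 + exp s‖ ∧ ‖s‖ ≤ 8 * N := by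
  have hN' : (1 : ℝ) ≤ N := by exact_mod_cast hN
  have hpi := Real.pi_pos
  have hpi2 := Real.pi_lt_d2
  have hlt1 : -(N : ℝ) < N := by linarith
  have hlt2 : -(2 * Real.pi * N) < 2 * Real.pi * N := by nlinarith
  rw [Complex.frontier_reProdIm, closure_Ioo hlt1.ne, closure_Ioo hlt2.ne, frontier_Ioo hlt1,
    frontier_Ioo hlt2] at hs
  have hnorm : ‖s‖ ≤ |s.re| + |s.im| := Complex.norm_le_abs_re_add_abs_im s
  have hb : 2 * Real.pi * N ≤ 7 * N := by nlinarith
  rcases hs with ⟨h1, h2⟩ | ⟨h1, h2⟩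
  · simp only [mem_preimage, mem_Icc, mem_insert_iff, mem_singleton_iff] at h1 h2
    have hc : Real.cos s.im = 1 := by
      rcases h2 with h2 | h2
      · rw [h2, Real.cos_neg, mul_comm, Real.cos_nat_mul_two_pi]
      · rw [h2, mul_comm, Real.cos_nat_mul_two_pi]
    constructor
    · refine le_trans ?_ (Complex.re_le_norm _)
      rw [add_re, Complex.exp_re, hc]
      have := Real.exp_pos s.re
      simp only [one_re]
      linarith
    · have a1 : |s.re| ≤ N := abs_le.mpr h1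
      have a2 : |s.im| ≤ 2 * Real.pi * N := by
        rcases h2 with h2 | h2 <;> rw [h2] <;> apply abs_le.mpr <;> constructor <;> linarith
      linarith
  · simp only [mem_preimage, mem_Icc, mem_insert_iff, mem_singleton_iff] at h1 h2
    constructor
    · rcases h1 with h1 | h1
      · have e1 : ‖exp s‖ ≤ 1 / 2 := by
          rw [Complex.norm_exp, h1, Real.exp_neg, inv_eq_one_div]
          have := Real.add_one_le_exp (N : ℝ)
          exact one_div_le_one_div_of_le (by norm_num) (by linarith)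
        have e2 : ‖(1 : ℂ)‖ ≤ ‖1 + exp s‖ + ‖exp s‖ := by
          have := norm_sub_le (1 + exp s) (exp s)
          simpa using this
        rw [norm_one] at e2
        linarith
      · have e1 : 2 ≤ ‖exp s‖ := by
          rw [Complex.norm_exp, h1]
          have := Real.add_one_le_exp (N : ℝ)
          linarith
        have e2 : ‖exp s‖ ≤ ‖1 + exp s‖ + ‖(1 : ℂ)‖ := by
          have := norm_sub_le (1 + exp s) 1
          simpa using this
        rw [norm_one] at e2
        linarith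
    · have a1 : |s.re| ≤ N := by
        rcases h1 with h1 | h1 <;> rw [h1] <;> apply abs_le.mpr <;> constructor <;> linarith
      have a2 : |s.im| ≤ 2 * Real.pi * N := abs_le.mpr h2
      linarith

lemma norm_one_add_I_ge : 1 ≤ ‖(1 + I : ℂ)‖ := by
  have := Complex.re_le_norm (1 + I)
  simpa using this

lemma norm_one_add_I_le : ‖(1 + I : ℂ)‖ ≤ 2 := by
  have := norm_add_le (1 : ℂ) I
  simp only [norm_one, norm_I] at this
  linarith

/-- The quotient by `EE` has exponential type. -/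
lemma quot_growth {g h : ℂ → ℂ} (hh : Differentiable ℂ h) (hgh : ∀ z, g z = EE z * h z)
    {δ : ℝ} {n : ℕ} (hδ : 0 ≤ δ) (hb : ∀ ζ, ‖g ζ‖ ≤ δ * wt n ζ) (ζ : ℂ) :
    ‖h ζ‖ ≤ 2 * δ * Real.exp 48 * Real.exp (48 * ‖ζ‖) := by
  have h1I : (1 + I : ℂ) ≠ 0 := by
    intro h3
    have := congrArg Complex.re h3
    simp at this
  set s₀ : ℂ := (1 + I) * ζ with hs₀
  set N : ℕ := ⌈‖s₀‖⌉₊ + 1 with hN
  have hN1 : 1 ≤ N := by omega
  have hNlt : ‖s₀‖ < N := by
    have := Nat.le_ceil ‖s₀‖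
    rw [hN]
    push_cast
    linarith
  have hNle : (N : ℝ) ≤ ‖s₀‖ + 2 := by
    have := Nat.ceil_lt_add_one (norm_nonneg s₀)
    rw [hN]
    push_cast
    linarith
  have hs₀le : ‖s₀‖ ≤ 2 * ‖ζ‖ := by
    rw [hs₀, norm_mul]
    exact mul_le_mul_of_nonneg_right norm_one_add_I_le (norm_nonneg _)
  have hH : Differentiable ℂ (fun s => h (s / (1 + I))) := hh.comp (differentiable_id.div_const _)
  have hbd : Bornology.IsBounded
      (Ioo (-(N : ℝ)) N ×ℂ Ioo (-(2 * Real.pi * N)) (2 * Real.pi * N)) :=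
    (Metric.isBounded_Ioo _ _).reProdIm (Metric.isBounded_Ioo _ _)
  have key := Complex.norm_le_of_forall_mem_frontier_norm_le hbd hH.diffContOnCl
    (C := 2 * δ * Real.exp (24 * N)) (z := s₀) ?_ ?_
  · have e : s₀ / (1 + I) = ζ := by
      rw [hs₀]; field_simp
    simp only [e] at key
    refine key.trans ?_
    rw [mul_assoc (2 * δ), ← Real.exp_add]
    apply mul_le_mul_of_nonneg_left _ (by positivity)
    apply Real.exp_le_exp.mpr
    linarith
  · intro s hs
    obtain ⟨a1, a2⟩ := half_le_frontier N hN1 s hs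
    set w : ℂ := s / (1 + I) with hw
    have hws : (1 + I) * w = s := by
      rw [hw]; field_simp
    have hwle : ‖w‖ ≤ 8 * N := by
      have : ‖w‖ ≤ ‖s‖ := by
        rw [← hws, norm_mul]
        exact le_mul_of_one_le_left (norm_nonneg _) norm_one_add_I_ge
      linarith
    have b1 : ‖g w‖ ≤ δ * Real.exp (2 * ‖w‖) :=
      (hb w).trans (mul_le_mul_of_nonneg_left (wt_le_exp n w) hδ)
    have b2 : Real.exp (-‖w‖) * (1 / 2) ≤ ‖EE w‖ := by
      rw [EE_factor, hws, norm_mul, Complex.norm_exp]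
      apply mul_le_mul _ a1 (by norm_num) (Real.exp_pos _).le
      apply Real.exp_le_exp.mpr
      have := Complex.re_le_norm w
      simp only [neg_re]
      linarith
    have b3 : Real.exp (-‖w‖) * (1 / 2) * ‖h w‖ ≤ δ * Real.exp (2 * ‖w‖) := by
      refine le_trans ?_ b1
      rw [hgh w, norm_mul]
      exact mul_le_mul_of_nonneg_right b2 (norm_nonneg _)
    have b4 : ‖h w‖ ≤ 2 * δ * Real.exp (3 * ‖w‖) := by
      have e1 : Real.exp (3 * ‖w‖) = Real.exp (2 * ‖w‖) * Real.exp ‖w‖ := by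
        rw [← Real.exp_add]; congr 1; ring
      have e2 : Real.exp (-‖w‖) * Real.exp ‖w‖ = 1 := by
        rw [← Real.exp_add]; simp
      have e3 := mul_le_mul_of_nonneg_right b3 (Real.exp_pos ‖w‖).le
      calc ‖h w‖ = 2 * (Real.exp (-‖w‖) * (1 / 2) * ‖h w‖ * Real.exp ‖w‖) := by
            linear_combination (-‖h w‖) * e2
        _ ≤ 2 * (δ * Real.exp (2 * ‖w‖) * Real.exp ‖w‖) := by linarith
        _ = _ := by rw [e1]; ring
    refine b4.trans ?_
    apply mul_le_mul_of_nonneg_left _ (by positivity)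
    apply Real.exp_le_exp.mpr
    linarith
  · apply subset_closure
    have a1 := Complex.abs_re_le_norm s₀
    have a2 := Complex.abs_im_le_norm s₀
    have hpi := Real.pi_gt_three
    have hN' : (1 : ℝ) ≤ N := by exact_mod_cast hN1
    have hb2 : (N : ℝ) ≤ 2 * Real.pi * N := by nlinarith
    rw [abs_le] at a1 a2
    constructor
    · simp only [mem_preimage, mem_Ioo]
      constructor <;> linarith [a1.1, a1.2]
    · simp only [mem_preimage, mem_Ioo]
      constructor <;> linarith [a2.1, a2.2]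

/-- Key decay estimate in the first quadrant. -/
lemma decay {g : ℂ → ℂ} (hg : Differentiable ℂ g) (hz : ∀ c, EE c = 0 → g c = 0)
    {δ : ℝ} {n : ℕ} (hδ : 0 ≤ δ) (hb : ∀ ζ, ‖g ζ‖ ≤ δ * wt n ζ) (ζ : ℂ)
    (h1 : 0 ≤ ζ.re) (h2 : 0 ≤ ζ.im) :
    ‖g ζ‖ ≤ 4 * δ * Real.exp ((ζ.re + ζ.im) / (n + 1) - min ζ.re ζ.im) := by
  obtain ⟨h, hh, hgh⟩ := exists_div hg EE_diff (fun c hc => deriv_EE_ne hc) hz
  have hn : (0 : ℝ) < (n : ℝ) + 1 := by positivity
  set F : ℂ → ℂ := fun z => h z * exp (-((1 - I) * z) / ((n : ℂ) + 1)) with hF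
  have hFd : Differentiable ℂ F := by
    rw [hF]
    fun_prop
  have hnF : ∀ z, ‖F z‖ = ‖h z‖ * Real.exp (-((z.re + z.im) / (n + 1))) := by
    intro z
    rw [hF]
    simp only
    rw [norm_mul, Complex.norm_exp]
    congr 2
    have : ((n : ℂ) + 1) = ((n + 1 : ℝ) : ℂ) := by push_cast; ring
    rw [this, Complex.div_ofReal_re]
    simp
    ring
  have hax : ∀ (z : ℂ) (x : ℝ), 0 ≤ x → ‖z‖ = x → z.re + z.im = x → 0 ≤ z.re → 0 ≤ z.im →
      1 / 2 ≤ ‖EE z‖ → ‖F z‖ ≤ 2 * δ := by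
    intro z x hx e1 e2 e3 e4 e5
    have b1 := hb z
    have hw : wt n z = Real.exp (x / (n + 1)) := by
      unfold wt
      rw [e1]
      have : max 0 (max (-z.re) (-z.im)) = 0 :=
        max_eq_left (max_le (by linarith) (by linarith))
      rw [this, add_zero]
    rw [hw, hgh z, norm_mul] at b1
    have b2 : ‖h z‖ ≤ 2 * δ * Real.exp (x / (n + 1)) := by
      have := mul_le_mul_of_nonneg_right e5 (norm_nonneg (h z))
      linarith
    rw [hnF, e2]
    have e6 : Real.exp (x / (n + 1)) * Real.exp (-(x / (n + 1))) = 1 := by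
      rw [← Real.exp_add]; simp
    calc ‖h z‖ * Real.exp (-(x / (n + 1)))
        ≤ 2 * δ * Real.exp (x / (n + 1)) * Real.exp (-(x / (n + 1))) :=
          mul_le_mul_of_nonneg_right b2 (Real.exp_pos _).le
      _ = 2 * δ := by rw [mul_assoc, e6, mul_one]
  have key : ‖F ζ‖ ≤ 2 * δ := by
    refine PhragmenLindelof.quadrant_I hFd.diffContOnCl ⟨1, by norm_num, 48, ?_⟩ ?_ ?_ h1 h2
    · apply Asymptotics.IsBigO.of_bound (2 * δ * Real.exp 48)
      apply Filter.mem_inf_of_right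
      intro z hz'
      have a1 : 0 < z.re := hz'.1
      have a2 : 0 < z.im := hz'.2
      simp only [mem_ofPred_eq, Real.rpow_one, Real.norm_eq_abs, Real.abs_exp]
      rw [hnF]
      have a3 : Real.exp (-((z.re + z.im) / (n + 1))) ≤ 1 := by
        apply Real.exp_le_one_iff.mpr
        have : 0 ≤ (z.re + z.im) / (n + 1) := by positivity
        linarith
      have a4 := quot_growth hh hgh hδ hb z
      calc ‖h z‖ * Real.exp (-((z.re + z.im) / (n + 1))) ≤ ‖h z‖ * 1 :=
            mul_le_mul_of_nonneg_left a3 (norm_nonneg _)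
        _ ≤ _ := by rw [mul_one]; exact a4
    · intro x hx
      exact hax x x hx (by simp [abs_of_nonneg hx]) (by simp) (by simpa using hx) (by simp)
        (EE_real x hx)
    · intro x hx
      exact hax (x * I) x hx (by simp [abs_of_nonneg hx]) (by simp) (by simp) (by simpa using hx)
        (EE_imag x hx)
  rw [hnF] at key
  have b1 : ‖h ζ‖ ≤ 2 * δ * Real.exp ((ζ.re + ζ.im) / (n + 1)) := by
    have e6 : Real.exp (-((ζ.re + ζ.im) / (n + 1))) * Real.exp ((ζ.re + ζ.im) / (n + 1)) = 1 := by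
      rw [← Real.exp_add]; simp
    calc ‖h ζ‖ = ‖h ζ‖ * Real.exp (-((ζ.re + ζ.im) / (n + 1))) *
          Real.exp ((ζ.re + ζ.im) / (n + 1)) := by rw [mul_assoc, e6, mul_one]
      _ ≤ _ := mul_le_mul_of_nonneg_right key (Real.exp_pos _).le
  have b2 : ‖EE ζ‖ ≤ 2 * Real.exp (-min ζ.re ζ.im) := by
    refine (norm_EE_le ζ).trans ?_
    have a1 : Real.exp (-ζ.im) ≤ Real.exp (-min ζ.re ζ.im) :=
      Real.exp_le_exp.mpr (by linarith [min_le_right ζ.re ζ.im])
    have a2 : Real.exp (-ζ.re) ≤ Real.exp (-min ζ.re ζ.im) :=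
      Real.exp_le_exp.mpr (by linarith [min_le_left ζ.re ζ.im])
    linarith
  rw [hgh ζ, norm_mul, sub_eq_add_neg, Real.exp_add]
  calc ‖EE ζ‖ * ‖h ζ‖ ≤ (2 * Real.exp (-min ζ.re ζ.im)) *
        (2 * δ * Real.exp ((ζ.re + ζ.im) / (n + 1))) :=
        mul_le_mul b2 b1 (norm_nonneg _) (by positivity)
    _ = _ := by ring

/-- Division by `z - c` costs at most a constant factor. -/
lemma div_bound {g : ℂ → ℂ} (hg : Differentiable ℂ g) {W : ℂ → ℝ} {L K : ℝ} (hK : 0 ≤ K)
    (hW : ∀ a b, ‖a - b‖ ≤ 2 → W a ≤ L * W b) (c : ℂ)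
    (hb : ∀ w, ‖(w - c) * g w‖ ≤ K * W w) (z : ℂ) : ‖g z‖ ≤ K * (L * W z) := by
  have far : ∀ w, 1 ≤ ‖w - c‖ → ‖w - z‖ ≤ 2 → ‖g w‖ ≤ K * (L * W z) := by
    intro w h1 h2
    have a1 := hb w
    rw [norm_mul] at a1
    have a2 : ‖g w‖ ≤ ‖w - c‖ * ‖g w‖ := le_mul_of_one_le_left (norm_nonneg _) h1
    exact a2.trans (a1.trans (mul_le_mul_of_nonneg_left (hW w z h2) hK))
  by_cases hz : 1 ≤ ‖z - c‖
  · exact far z hz (by simp)
  · push Not at hz
    refine Complex.norm_le_of_forall_mem_frontier_norm_le (U := Metric.ball c 1)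
      Metric.isBounded_ball hg.diffContOnCl ?_ ?_
    · intro w hw
      rw [frontier_ball c one_ne_zero] at hw
      have e1 : ‖w - c‖ = 1 := by simpa [dist_eq_norm] using hw
      apply far w e1.ge
      have : ‖w - z‖ ≤ ‖w - c‖ + ‖z - c‖ := by
        have := norm_sub_le (w - c) (z - c)
        simpa using this
      linarith
    · apply subset_closure
      simpa [dist_eq_norm] using hz

/-- Polynomials have exponential type zero. -/
lemma poly_bound (p : Polynomial ℂ) {η : ℝ} (hη : 0 < η) :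
    ∃ C : ℝ, 0 < C ∧ ∀ z : ℂ, ‖p.eval z‖ ≤ C * Real.exp (η * ‖z‖) := by
  induction p using Polynomial.induction_on' with
  | add p q hp hq =>
    obtain ⟨C1, h1, hp⟩ := hp
    obtain ⟨C2, h2, hq⟩ := hq
    refine ⟨C1 + C2, by linarith, fun z => ?_⟩
    rw [Polynomial.eval_add]
    have := norm_add_le (p.eval z) (q.eval z)
    have a1 := hp z
    have a2 := hq z
    linarith
  | monomial k a =>
    refine ⟨(‖a‖ + 1) * (k.factorial / η ^ k), by positivity, fun z => ?_⟩
    rw [Polynomial.eval_monomial, norm_mul, norm_pow]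
    have a1 := Real.pow_div_factorial_le_exp (η * ‖z‖) (by positivity) k
    have hk : (0 : ℝ) < k.factorial := by positivity
    have a2 : ‖z‖ ^ k ≤ (k.factorial / η ^ k) * Real.exp (η * ‖z‖) := by
      rw [div_le_iff₀ hk, mul_pow] at a1
      rw [div_mul_eq_mul_div, le_div_iff₀ (by positivity)]
      linarith
    rw [mul_assoc]
    apply mul_le_mul (by linarith) a2 (by positivity) (by positivity)

lemma wt_succ (n : ℕ) (ζ : ℂ) :
    Real.exp ((1 / (((n : ℝ) + 1) * (n + 2))) * ‖ζ‖) * wt (n + 1) ζ = wt n ζ := by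
  unfold wt
  rw [← Real.exp_add]
  congr 1
  push_cast
  have : (0 : ℝ) ≤ n := Nat.cast_nonneg n
  field_simp
  ring

end Pool.Agent.Lib.MP_efa496_an
end

-- part Pool.Agent.Lib.MP_efa496_an.Space
section

/-!
The module, its topology and the submodule used in the counterexample (problem MP_efa496_an).
-/

set_option autoImplicit false

namespace Pool.Agent.Lib.MP_efa496_an

open Complex Filter Topology Set Pointwise

/-- The three rotations. -/
noncomputable def om : Fin 3 → ℂ := ![1 + I, 3 - I, -1 + 3 * I]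

lemma norm_om_le (j : Fin 3) : ‖om j‖ ≤ 4 := by
  refine (Complex.norm_le_abs_re_add_abs_im _).trans ?_
  fin_cases j <;> simp [om] <;> norm_num

lemma one_le_norm_om (j : Fin 3) : 1 ≤ ‖om j‖ := by
  refine le_trans ?_ (Complex.abs_re_le_norm _)
  fin_cases j <;> simp [om]

lemma om_ne (j : Fin 3) : om j ≠ 0 := by
  intro h
  have := one_le_norm_om j
  rw [h, norm_zero] at this
  linarith

/-- The ambient module. -/
noncomputable def PP : Submodule ℂ (ℂ → Fin 3 → ℂ) where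
  carrier := {u | Differentiable ℂ u ∧
    ∀ n : ℕ, ∃ C : ℝ, 0 < C ∧ ∀ z j, ‖u z j‖ ≤ C * wt n (om j * z)}
  add_mem' := by
    rintro a b ⟨ha, ha'⟩ ⟨hb, hb'⟩
    refine ⟨ha.add hb, fun n => ?_⟩
    obtain ⟨C1, h1, h1'⟩ := ha' n
    obtain ⟨C2, h2, h2'⟩ := hb' n
    refine ⟨C1 + C2, by linarith, fun z j => ?_⟩
    have := norm_add_le (a z j) (b z j)
    have a1 := h1' z j
    have a2 := h2' z j
    simp only [Pi.add_apply]
    linarith
  zero_mem' := by
    refine ⟨differentiable_const _, fun n => ⟨1, one_pos, fun z j => ?_⟩⟩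
    simpa using (wt_pos n _).le
  smul_mem' := by
    rintro c a ⟨ha, ha'⟩
    refine ⟨ha.const_smul c, fun n => ?_⟩
    obtain ⟨C1, h1, h1'⟩ := ha' n
    refine ⟨(‖c‖ + 1) * C1, by positivity, fun z j => ?_⟩
    simp only [Pi.smul_apply, smul_eq_mul, norm_mul]
    rw [mul_assoc]
    exact mul_le_mul (by linarith) (h1' z j) (norm_nonneg _) (by positivity)

lemma mem_PP {u : ℂ → Fin 3 → ℂ} : u ∈ PP ↔ Differentiable ℂ u ∧
    ∀ n : ℕ, ∃ C : ℝ, 0 < C ∧ ∀ z j, ‖u z j‖ ≤ C * wt n (om j * z) := Iff.rfl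

/-- Basic neighbourhoods of zero. -/
def BB (n : ℕ) (δ : ℝ) : Set PP :=
  {u | ∀ z j, ‖(u : ℂ → Fin 3 → ℂ) z j‖ ≤ δ * wt n (om j * z)}

lemma BB_mono {n m : ℕ} {δ ε : ℝ} (h : n ≤ m) (h0 : 0 ≤ δ) (h' : δ ≤ ε) : BB m δ ⊆ BB n ε := by
  intro u hu z j
  exact (hu z j).trans (mul_le_mul h' (wt_anti h _) (wt_pos _ _).le (h0.trans h'))

lemma smul_mem_BB {n : ℕ} {δ ε : ℝ} {u : PP} {c : ℂ} (hu : u ∈ BB n δ) (h : ‖c‖ * δ ≤ ε) :
    c • u ∈ BB n ε := by
  intro z j
  have := hu z j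
  simp only [SetLike.val_smul, Pi.smul_apply, smul_eq_mul, norm_mul]
  calc ‖c‖ * ‖(u : ℂ → Fin 3 → ℂ) z j‖ ≤ ‖c‖ * (δ * wt n (om j * z)) :=
        mul_le_mul_of_nonneg_left this (norm_nonneg _)
    _ = (‖c‖ * δ) * wt n (om j * z) := by ring
    _ ≤ _ := mul_le_mul_of_nonneg_right h (wt_pos _ _).le

lemma add_mem_BB {n : ℕ} {δ ε : ℝ} {u v : PP} (hu : u ∈ BB n δ) (hv : v ∈ BB n ε) :
    u + v ∈ BB n (δ + ε) := by
  intro z j
  have a1 := hu z j
  have a2 := hv z j
  have := norm_add_le ((u : ℂ → Fin 3 → ℂ) z j) ((v : ℂ → Fin 3 → ℂ) z j)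
  simp only [Submodule.coe_add, Pi.add_apply]
  linarith

/-- The additive group filter basis. -/
@[reducible] noncomputable def gb : AddGroupFilterBasis PP :=
  addGroupFilterBasisOfComm {U | ∃ n : ℕ, ∃ δ : ℝ, 0 < δ ∧ U = BB n δ}
    ⟨BB 0 1, 0, 1, one_pos, rfl⟩
    (by
      rintro _ _ ⟨n, δ, hδ, rfl⟩ ⟨m, ε, hε, rfl⟩
      refine ⟨BB (max n m) (min δ ε), ⟨_, _, lt_min hδ hε, rfl⟩, subset_inter ?_ ?_⟩
      · exact BB_mono (le_max_left _ _) (lt_min hδ hε).le (min_le_left _ _)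
      · exact BB_mono (le_max_right _ _) (lt_min hδ hε).le (min_le_right _ _))
    (by
      rintro _ ⟨n, δ, hδ, rfl⟩ z j
      simpa using (mul_pos hδ (wt_pos n _)).le)
    (by
      rintro _ ⟨n, δ, hδ, rfl⟩
      refine ⟨BB n (δ / 2), ⟨_, _, half_pos hδ, rfl⟩, ?_⟩
      rintro _ ⟨u, hu, v, hv, rfl⟩
      have := add_mem_BB hu hv
      rwa [add_halves] at this)
    (by
      rintro _ ⟨n, δ, hδ, rfl⟩
      refine ⟨BB n δ, ⟨_, _, hδ, rfl⟩, ?_⟩
      intro u hu z j
      simpa using hu z j)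

/-- The module filter basis. -/
noncomputable def mb : ModuleFilterBasis ℂ PP :=
  { gb with
    smul' := by
      rintro _ ⟨n, δ, hδ, rfl⟩
      refine ⟨Metric.ball 0 1, Metric.ball_mem_nhds _ one_pos, BB n δ, ⟨_, _, hδ, rfl⟩, ?_⟩
      rintro _ ⟨c, hc, v, hv, rfl⟩
      apply smul_mem_BB hv
      have : ‖c‖ < 1 := by simpa using hc
      nlinarith
    smul_left' := by
      rintro c _ ⟨n, δ, hδ, rfl⟩
      refine ⟨BB n (δ / (‖c‖ + 1)), ⟨_, _, by positivity, rfl⟩, ?_⟩
      intro v hv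
      apply smul_mem_BB hv
      rw [mul_div_assoc', div_le_iff₀ (by positivity)]
      nlinarith
    smul_right' := by
      rintro v _ ⟨n, δ, hδ, rfl⟩
      obtain ⟨C, hC, hv⟩ := v.2.2 n
      filter_upwards [Metric.ball_mem_nhds (0 : ℂ) (div_pos hδ hC)] with c hc
      apply smul_mem_BB (δ := C) hv
      have : ‖c‖ < δ / C := by simpa using hc
      rw [lt_div_iff₀ hC] at this
      exact this.le }

/-- The topology. -/
@[reducible] noncomputable def tau : TopologicalSpace PP := mb.topology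

lemma mem_nhds_tau {V : Set PP} :
    V ∈ @nhds PP tau 0 ↔ ∃ n : ℕ, ∃ δ : ℝ, 0 < δ ∧ BB n δ ⊆ V := by
  have h := mb.toAddGroupFilterBasis.nhds_zero_hasBasis
  rw [h.mem_iff]
  constructor
  · rintro ⟨_, ⟨n, δ, hδ, rfl⟩, h2⟩
    exact ⟨n, δ, hδ, h2⟩
  · rintro ⟨n, δ, hδ, h2⟩
    exact ⟨_, ⟨n, δ, hδ, rfl⟩, h2⟩

lemma BB_mem_nhds (n : ℕ) {δ : ℝ} (hδ : 0 < δ) : BB n δ ∈ @nhds PP tau 0 :=
  mem_nhds_tau.mpr ⟨n, δ, hδ, Subset.rfl⟩

lemma tau_addGroup : @IsTopologicalAddGroup PP tau _ :=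
  mb.toAddGroupFilterBasis.isTopologicalAddGroup

lemma tau_smul : @ContinuousSMul ℂ PP _ _ tau := mb.continuousSMul

lemma tau_t2 : @T2Space PP tau := by
  refine (@AddGroupFilterBasis.t2Space_iff_sInter_subset PP _ tau mb.toAddGroupFilterBasis
    rfl).mpr ?_
  intro u hu
  rw [mem_singleton_iff]
  apply Subtype.ext
  funext z j
  have h : ∀ δ : ℝ, 0 < δ → ‖(u : ℂ → Fin 3 → ℂ) z j‖ ≤ δ * wt 0 (om j * z) :=
    fun δ hδ => hu (BB 0 δ) ⟨0, δ, hδ, rfl⟩ z j
  have hw := wt_pos 0 (om j * z)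
  have : ‖(u : ℂ → Fin 3 → ℂ) z j‖ ≤ 0 := by
    apply le_of_forall_pos_le_add
    intro ε hε
    have := h (ε / wt 0 (om j * z)) (by positivity)
    rw [div_mul_cancel₀ _ hw.ne'] at this
    linarith
  simpa using this

lemma poly_smul_bound (p : Polynomial ℂ) (n : ℕ) : ∃ K : ℝ, 0 < K ∧
    ∀ (f : ℂ → Fin 3 → ℂ) (C : ℝ), 0 ≤ C → (∀ z j, ‖f z j‖ ≤ C * wt (n + 1) (om j * z)) →
      ∀ z j, ‖(p.eval z • f z) j‖ ≤ K * C * wt n (om j * z) := by
  have hη : (0 : ℝ) < 1 / (((n : ℝ) + 1) * (n + 2)) := by positivity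
  obtain ⟨K, hK, hp⟩ := poly_bound p hη
  refine ⟨K, hK, fun f C hC hf z j => ?_⟩
  simp only [Pi.smul_apply, smul_eq_mul, norm_mul]
  have a1 : ‖z‖ ≤ ‖om j * z‖ := by
    rw [norm_mul]
    exact le_mul_of_one_le_left (norm_nonneg _) (one_le_norm_om j)
  have a2 : ‖p.eval z‖ ≤ K * Real.exp (1 / (((n : ℝ) + 1) * (n + 2)) * ‖om j * z‖) := by
    refine (hp z).trans (mul_le_mul_of_nonneg_left ?_ hK.le)
    exact Real.exp_le_exp.mpr (mul_le_mul_of_nonneg_left a1 hη.le)
  rw [← wt_succ n]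
  calc ‖p.eval z‖ * ‖f z j‖
      ≤ (K * Real.exp (1 / (((n : ℝ) + 1) * (n + 2)) * ‖om j * z‖)) *
        (C * wt (n + 1) (om j * z)) :=
        mul_le_mul a2 (hf z j) (norm_nonneg _) (by positivity)
    _ = _ := by ring

lemma poly_smul_mem (p : Polynomial ℂ) (f : ℂ → Fin 3 → ℂ) (hf : f ∈ PP) :
    (fun w => p.eval w • f w) ∈ PP := by
  refine ⟨p.differentiable.smul hf.1, fun n => ?_⟩
  obtain ⟨K, hK, h⟩ := poly_smul_bound p n
  obtain ⟨C, hC, hf'⟩ := hf.2 (n + 1)
  exact ⟨K * C, mul_pos hK hC, h f C hC.le hf'⟩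

lemma poly_smul_cont (p : Polynomial ℂ) (g : PP → PP)
    (hg : ∀ x : PP, ((g x : PP) : ℂ → Fin 3 → ℂ) = fun w => p.eval w • (x : ℂ → Fin 3 → ℂ) w) :
    @Continuous PP PP tau tau g := by
  let _ := tau
  have := tau_addGroup
  let G : PP →+ PP := AddMonoidHom.mk' g (by
    intro a b
    apply Subtype.ext
    rw [Submodule.coe_add, hg, hg, hg]
    funext w
    simp [smul_add])
  have : Continuous G := by
    apply continuous_of_continuousAt_zero G
    rw [ContinuousAt, map_zero]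
    intro V hV
    obtain ⟨n, δ, hδ, hV⟩ := mem_nhds_tau.mp hV
    obtain ⟨K, hK, h⟩ := poly_smul_bound p n
    refine mem_nhds_tau.mpr ⟨n + 1, δ / K, by positivity, ?_⟩
    intro x hx
    apply hV
    intro z j
    have := h x (δ / K) (by positivity) hx z j
    rw [mul_div_cancel₀ _ hK.ne'] at this
    change ‖((g x : PP) : ℂ → Fin 3 → ℂ) z j‖ ≤ _
    rw [hg]
    exact this
  exact this

lemma div_bound_vec {g x : ℂ → Fin 3 → ℂ} (hg : Differentiable ℂ g) (c : ℂ)
    (hx : ∀ w, x w = (w - c) • g w) {n : ℕ} {K : ℝ} (hK : 0 ≤ K)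
    (hb : ∀ z j, ‖x z j‖ ≤ K * wt n (om j * z)) (z : ℂ) (j : Fin 3) :
    ‖g z j‖ ≤ (K * Real.exp 16) * wt n (om j * z) := by
  have hgj : Differentiable ℂ (fun w => g w j) := differentiable_pi.mp hg j
  rw [mul_assoc]
  refine div_bound (W := fun w => wt n (om j * w)) hgj hK ?_ c ?_ z
  · intro a b hab
    refine (wt_lip n (om j * a) (om j * b)).trans ?_
    apply mul_le_mul_of_nonneg_right _ (wt_pos _ _).le
    apply Real.exp_le_exp.mpr
    rw [← mul_sub, norm_mul]
    have := norm_om_le j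
    have := norm_nonneg (a - b)
    have := norm_nonneg (om j)
    nlinarith
  · intro w
    have := hb w j
    rw [hx w] at this
    simpa using this

lemma sum_bound {n : ℕ} (F : Fin n → PP) (m : ℕ) : ∃ C : ℝ, 0 < C ∧ ∀ z j,
    ∑ i, ‖(F i : ℂ → Fin 3 → ℂ) z j‖ ≤ C * wt m (om j * z) := by
  choose C hC hF using fun i => (F i).2.2 m
  refine ⟨∑ i, C i + 1, ?_, fun z j => ?_⟩
  · have : 0 ≤ ∑ i, C i := Finset.sum_nonneg fun i _ => (hC i).le
    linarith
  · rw [add_mul, Finset.sum_mul]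
    have : ∑ i, ‖(F i : ℂ → Fin 3 → ℂ) z j‖ ≤ ∑ i, C i * wt m (om j * z) :=
      Finset.sum_le_sum fun i _ => hF i z j
    have := wt_pos m (om j * z)
    linarith

/-- The divisorial submodule. -/
noncomputable def II : Submodule ℂ (ℂ → Fin 3 → ℂ) where
  carrier := {u | u ∈ PP ∧ ∀ z j, EE (om j * z) = 0 → u z j = 0}
  add_mem' := by
    rintro a b ⟨ha, ha'⟩ ⟨hb, hb'⟩
    refine ⟨PP.add_mem ha hb, fun z j h => ?_⟩
    simp [ha' z j h, hb' z j h]
  zero_mem' := ⟨PP.zero_mem, fun z j _ => rfl⟩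
  smul_mem' := by
    rintro c a ⟨ha, ha'⟩
    refine ⟨PP.smul_mem c ha, fun z j h => ?_⟩
    simp [ha' z j h]

/-- The diagonal generators. -/
noncomputable def gen (s : Fin 3) : ℂ → Fin 3 → ℂ :=
  fun z j => if j = s then EE (om j * z) else 0

lemma gen_mem (s : Fin 3) : gen s ∈ II := by
  refine ⟨⟨?_, fun n => ⟨2, two_pos, fun z j => ?_⟩⟩, fun z j h => ?_⟩
  · apply differentiable_pi.mpr
    intro j
    unfold gen
    by_cases h : j = s
    · simp only [h, if_true]
      exact EE_diff.comp (differentiable_id.const_mul _)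
    · simp only [h, if_false]
      exact differentiable_const _
  · unfold gen
    by_cases h : j = s
    · simp only [h, if_true]
      exact norm_EE_le_wt _ _
    · simp only [h, if_false, norm_zero]
      exact (mul_pos two_pos (wt_pos _ _)).le
  · unfold gen
    simp [h]

lemma one_mem : (fun (_ : ℂ) (_ : Fin 3) => (1 : ℂ)) ∈ PP := by
  refine ⟨differentiable_const _, fun n => ⟨1, one_pos, fun z j => ?_⟩⟩
  simpa using one_le_wt n _

/-- In the right half plane one of the three rotated points lies deep inside the first quadrant. -/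
lemma exists_sector (z : ℂ) (hz : 0 ≤ z.re) : ∃ j : Fin 3, 0 ≤ (om j * z).re ∧
    0 ≤ (om j * z).im ∧ ((om j * z).re + (om j * z).im) / 16 - min (om j * z).re (om j * z).im
      ≤ -(z.re / 4) := by
  by_cases h1 : z.re / 2 ≤ z.im
  · refine ⟨1, ?_⟩
    have e1 : (om 1 * z).re = 3 * z.re + z.im := by simp [om]
    have e2 : (om 1 * z).im = 3 * z.im - z.re := by simp [om]; ring
    rw [e1, e2]
    refine ⟨by linarith, by linarith, ?_⟩
    rcases le_total (3 * z.re + z.im) (3 * z.im - z.re) with h | h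
    · rw [min_eq_left h]; linarith
    · rw [min_eq_right h]; linarith
  · by_cases h2 : z.im ≤ -(z.re / 2)
    · refine ⟨2, ?_⟩
      have e1 : (om 2 * z).re = -z.re - 3 * z.im := by simp [om]
      have e2 : (om 2 * z).im = 3 * z.re - z.im := by simp [om]; ring
      rw [e1, e2]
      refine ⟨by linarith, by linarith, ?_⟩
      rcases le_total (-z.re - 3 * z.im) (3 * z.re - z.im) with h | h
      · rw [min_eq_left h]; linarith
      · rw [min_eq_right h]; linarith
    · push Not at h1 h2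
      refine ⟨0, ?_⟩
      have e1 : (om 0 * z).re = z.re - z.im := by simp [om]
      have e2 : (om 0 * z).im = z.re + z.im := by simp [om]; ring
      rw [e1, e2]
      refine ⟨by linarith, by linarith, ?_⟩
      rcases le_total (z.re - z.im) (z.re + z.im) with h | h
      · rw [min_eq_left h]; linarith
      · rw [min_eq_right h]; linarith

lemma small_row (z : ℂ) (hz : 0 ≤ z.re) : ∃ j : Fin 3, ∀ u : PP, u ∈ BB 15 (1 / 4) →
    (u : ℂ → Fin 3 → ℂ) ∈ II → ‖(u : ℂ → Fin 3 → ℂ) z j‖ ≤ Real.exp (-(z.re / 4)) := by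
  obtain ⟨j, h1, h2, h3⟩ := exists_sector z hz
  refine ⟨j, fun u hu hI => ?_⟩
  have hj := om_ne j
  have hd : Differentiable ℂ (fun ζ => (u : ℂ → Fin 3 → ℂ) (ζ / om j) j) :=
    (differentiable_pi.mp u.2.1 j).comp (differentiable_id.div_const _)
  have key := decay hd (δ := 1 / 4) (n := 15) ?_ (by norm_num) ?_ (om j * z) h1 h2
  · have e : om j * z / om j = z := by field_simp
    simp only [e] at key
    refine key.trans ?_
    have e2 : ((15 : ℕ) : ℝ) + 1 = 16 := by norm_num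
    rw [e2]
    have := Real.exp_le_exp.mpr h3
    linarith
  · intro c hc
    apply hI.2
    have e : om j * (c / om j) = c := by field_simp
    rw [e, hc]
  · intro ζ
    have := hu (ζ / om j) j
    have e : om j * (ζ / om j) = ζ := by field_simp
    rwa [e] at this

lemma cramer_bound {k : ℕ} (M : Matrix (Fin k) (Fin k) ℂ) (hM : M.det ≠ 0) (r : Fin k) {t : ℝ}
    (ht : ∀ s, ‖M r s‖ ≤ t) :
    1 ≤ t * ∑ s, ‖(M.updateCol s (fun _ => 1)).det / M.det‖ := by
  have h := congrFun (Matrix.mulVec_cramer M (fun _ => 1)) r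
  simp only [Matrix.mulVec, dotProduct, Matrix.cramer_apply, Pi.smul_apply, smul_eq_mul,
    mul_one] at h
  have h2 : (1 : ℂ) = ∑ s, M r s * ((M.updateCol s (fun _ => 1)).det / M.det) := by
    simp only [← mul_div_assoc]
    rw [← Finset.sum_div, h, div_self hM]
  calc (1 : ℝ) = ‖(1 : ℂ)‖ := norm_one.symm
    _ = ‖∑ s, M r s * ((M.updateCol s (fun _ => 1)).det / M.det)‖ := by rw [← h2]
    _ ≤ ∑ s, ‖M r s * ((M.updateCol s (fun _ => 1)).det / M.det)‖ := norm_sum_le _ _
    _ ≤ ∑ s, t * ‖(M.updateCol s (fun _ => 1)).det / M.det‖ := by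
        apply Finset.sum_le_sum
        intro s _
        rw [norm_mul]
        exact mul_le_mul_of_nonneg_right (ht s) (norm_nonneg _)
    _ = _ := by rw [Finset.mul_sum]

end Pool.Agent.Lib.MP_efa496_an
end
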