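import Pool.Agent.Lib.MP_efa496_an.SectorCore

/-! The space of functions of exponential type at most one with any number of components, and a
submodule of any prescribed local rank at least two. -/

set_option autoImplicit false

namespace Pool.Agent.Lib.MP_efa496_an

open Complex Filter Topology Set Pointwise

variable {q : ℕ}

/-- The ambient module. -/
noncomputable def PQ (q : ℕ) : Submodule ℂ (ℂ → Fin q → ℂ) where
  carrier := {u | Differentiable ℂ u ∧
    ∀ n : ℕ, ∃ C : ℝ, 0 < C ∧ ∀ z j, ‖u z j‖ ≤ C * wd n z}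
  add_mem' := by
    rintro a b ⟨ha, ha'⟩ ⟨hb, hb'⟩
    refine ⟨ha.add hb, fun n => ?_⟩
    obtain ⟨C1, h1, h1'⟩ := ha' n
    obtain ⟨C2, h2, h2'⟩ := hb' n
    refine ⟨C1 + C2, by linarith, fun z j => ?_⟩
    have := norm_add_le (a z j) (b z j)
    have a1 := h1' z j
    have a2 := h2' z j
    simp only [Pi.add_apply]
    linarith
  zero_mem' := by
    refine ⟨differentiable_const _, fun n => ⟨1, one_pos, fun z j => ?_⟩⟩
    simpa using (wd_pos n _).le
  smul_mem' := by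
    rintro c a ⟨ha, ha'⟩
    refine ⟨ha.const_smul c, fun n => ?_⟩
    obtain ⟨C1, h1, h1'⟩ := ha' n
    refine ⟨(‖c‖ + 1) * C1, by positivity, fun z j => ?_⟩
    simp only [Pi.smul_apply, smul_eq_mul, norm_mul]
    rw [mul_assoc]
    exact mul_le_mul (by linarith) (h1' z j) (norm_nonneg _) (by positivity)

lemma mem_PQ {u : ℂ → Fin q → ℂ} : u ∈ (PQ q) ↔ Differentiable ℂ u ∧
    ∀ n : ℕ, ∃ C : ℝ, 0 < C ∧ ∀ z j, ‖u z j‖ ≤ C * wd n z := Iff.rfl

/-- Basic neighbourhoods of zero. -/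
def BQ (n : ℕ) (δ : ℝ) : Set (PQ q) :=
  {u | ∀ z j, ‖(u : ℂ → Fin q → ℂ) z j‖ ≤ δ * wd n z}

lemma BQ_mono {n m : ℕ} {δ ε : ℝ} (h : n ≤ m) (h0 : 0 ≤ δ) (h' : δ ≤ ε) :
    (BQ m δ : Set (PQ q)) ⊆ BQ n ε := by
  intro u hu z j
  exact (hu z j).trans (mul_le_mul h' (wd_anti h _) (wd_pos _ _).le (h0.trans h'))

lemma smul_mem_BQ {n : ℕ} {δ ε : ℝ} {u : (PQ q)} {c : ℂ} (hu : u ∈ BQ n δ) (h : ‖c‖ * δ ≤ ε) :
    c • u ∈ BQ n ε := by
  intro z j
  have := hu z j
  simp only [SetLike.val_smul, Pi.smul_apply, smul_eq_mul, norm_mul]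
  calc ‖c‖ * ‖(u : ℂ → Fin q → ℂ) z j‖ ≤ ‖c‖ * (δ * wd n z) :=
        mul_le_mul_of_nonneg_left this (norm_nonneg _)
    _ = (‖c‖ * δ) * wd n z := by ring
    _ ≤ _ := mul_le_mul_of_nonneg_right h (wd_pos _ _).le

lemma add_mem_BQ {n : ℕ} {δ ε : ℝ} {u v : (PQ q)} (hu : u ∈ BQ n δ) (hv : v ∈ BQ n ε) :
    u + v ∈ BQ n (δ + ε) := by
  intro z j
  have a1 := hu z j
  have a2 := hv z j
  have := norm_add_le ((u : ℂ → Fin q → ℂ) z j) ((v : ℂ → Fin q → ℂ) z j)
  simp only [Submodule.coe_add, Pi.add_apply]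
  linarith

/-- The additive group filter basis. -/
@[reducible] noncomputable def gbQ (q : ℕ) : AddGroupFilterBasis (PQ q) :=
  addGroupFilterBasisOfComm {U | ∃ n : ℕ, ∃ δ : ℝ, 0 < δ ∧ U = BQ n δ}
    ⟨BQ 0 1, 0, 1, one_pos, rfl⟩
    (by
      rintro _ _ ⟨n, δ, hδ, rfl⟩ ⟨m, ε, hε, rfl⟩
      refine ⟨BQ (max n m) (min δ ε), ⟨_, _, lt_min hδ hε, rfl⟩, subset_inter ?_ ?_⟩
      · exact BQ_mono (le_max_left _ _) (lt_min hδ hε).le (min_le_left _ _)
      · exact BQ_mono (le_max_right _ _) (lt_min hδ hε).le (min_le_right _ _))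
    (by
      rintro _ ⟨n, δ, hδ, rfl⟩ z j
      simpa using (mul_pos hδ (wd_pos n _)).le)
    (by
      rintro _ ⟨n, δ, hδ, rfl⟩
      refine ⟨BQ n (δ / 2), ⟨_, _, half_pos hδ, rfl⟩, ?_⟩
      rintro _ ⟨u, hu, v, hv, rfl⟩
      have := add_mem_BQ hu hv
      rwa [add_halves] at this)
    (by
      rintro _ ⟨n, δ, hδ, rfl⟩
      refine ⟨BQ n δ, ⟨_, _, hδ, rfl⟩, ?_⟩
      intro u hu z j
      simpa using hu z j)

/-- The module filter basis. -/
noncomputable def mbQ (q : ℕ) : ModuleFilterBasis ℂ (PQ q) :=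
  { gbQ q with
    smul' := by
      rintro _ ⟨n, δ, hδ, rfl⟩
      refine ⟨Metric.ball 0 1, Metric.ball_mem_nhds _ one_pos, BQ n δ, ⟨_, _, hδ, rfl⟩, ?_⟩
      rintro _ ⟨c, hc, v, hv, rfl⟩
      apply smul_mem_BQ hv
      have : ‖c‖ < 1 := by simpa using hc
      nlinarith
    smul_left' := by
      rintro c _ ⟨n, δ, hδ, rfl⟩
      refine ⟨BQ n (δ / (‖c‖ + 1)), ⟨_, _, by positivity, rfl⟩, ?_⟩
      intro v hv
      apply smul_mem_BQ hv
      rw [mul_div_assoc', div_le_iff₀ (by positivity)]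
      nlinarith
    smul_right' := by
      rintro v _ ⟨n, δ, hδ, rfl⟩
      obtain ⟨C, hC, hv⟩ := v.2.2 n
      filter_upwards [Metric.ball_mem_nhds (0 : ℂ) (div_pos hδ hC)] with c hc
      apply smul_mem_BQ (δ := C) hv
      have : ‖c‖ < δ / C := by simpa using hc
      rw [lt_div_iff₀ hC] at this
      exact this.le }

/-- The topology. -/
@[reducible] noncomputable def tauQ (q : ℕ) : TopologicalSpace (PQ q) := (mbQ q).topology

lemma mem_nhds_tauQ {V : Set (PQ q)} :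
    V ∈ @nhds (PQ q) (tauQ q) 0 ↔ ∃ n : ℕ, ∃ δ : ℝ, 0 < δ ∧ BQ n δ ⊆ V := by
  have h := (mbQ q).toAddGroupFilterBasis.nhds_zero_hasBasis
  rw [h.mem_iff]
  constructor
  · rintro ⟨_, ⟨n, δ, hδ, rfl⟩, h2⟩
    exact ⟨n, δ, hδ, h2⟩
  · rintro ⟨n, δ, hδ, h2⟩
    exact ⟨_, ⟨n, δ, hδ, rfl⟩, h2⟩

lemma BQ_mem_nhds (n : ℕ) {δ : ℝ} (hδ : 0 < δ) : BQ n δ ∈ @nhds (PQ q) (tauQ q) 0 :=
  mem_nhds_tauQ.mpr ⟨n, δ, hδ, Subset.rfl⟩

lemma tauQ_addGroup : @IsTopologicalAddGroup (PQ q) (tauQ q) _ :=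
  (mbQ q).toAddGroupFilterBasis.isTopologicalAddGroup

lemma tauQ_smul : @ContinuousSMul ℂ (PQ q) _ _ (tauQ q) := (mbQ q).continuousSMul

lemma tauQ_t2 : @T2Space (PQ q) (tauQ q) := by
  refine (@AddGroupFilterBasis.t2Space_iff_sInter_subset (PQ q) _ (tauQ q) (mbQ q).toAddGroupFilterBasis
    rfl).mpr ?_
  intro u hu
  rw [mem_singleton_iff]
  apply Subtype.ext
  funext z j
  have h : ∀ δ : ℝ, 0 < δ → ‖(u : ℂ → Fin q → ℂ) z j‖ ≤ δ * wd 0 z :=
    fun δ hδ => hu (BQ 0 δ) ⟨0, δ, hδ, rfl⟩ z j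
  have hw := wd_pos 0 z
  have : ‖(u : ℂ → Fin q → ℂ) z j‖ ≤ 0 := by
    apply le_of_forall_pos_le_add
    intro ε hε
    have := h (ε / wd 0 z) (by positivity)
    rw [div_mul_cancel₀ _ hw.ne'] at this
    linarith
  simpa using this

lemma poly_smul_boundQ (p : Polynomial ℂ) (n : ℕ) : ∃ K : ℝ, 0 < K ∧
    ∀ (f : ℂ → Fin q → ℂ) (C : ℝ), 0 ≤ C → (∀ z j, ‖f z j‖ ≤ C * wd (n + 1) z) →
      ∀ z j, ‖(p.eval z • f z) j‖ ≤ K * C * wd n z := by
  have hη : (0 : ℝ) < 1 / (((n : ℝ) + 1) * (n + 2)) := by positivity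
  obtain ⟨K, hK, hp⟩ := poly_bound p hη
  refine ⟨K, hK, fun f C hC hf z j => ?_⟩
  simp only [Pi.smul_apply, smul_eq_mul, norm_mul]
  rw [← wd_succ n]
  exact (mul_le_mul (hp z) (hf z j) (norm_nonneg _) (by positivity)).trans_eq (by ring)

lemma poly_smul_memQ (p : Polynomial ℂ) (f : ℂ → Fin q → ℂ) (hf : f ∈ (PQ q)) :
    (fun w => p.eval w • f w) ∈ (PQ q) := by
  refine ⟨p.differentiable.smul hf.1, fun n => ?_⟩
  obtain ⟨K, hK, h⟩ := poly_smul_boundQ (q := q) p n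
  obtain ⟨C, hC, hf'⟩ := hf.2 (n + 1)
  exact ⟨K * C, mul_pos hK hC, h f C hC.le hf'⟩

lemma poly_smul_contQ (p : Polynomial ℂ) (g : (PQ q) → (PQ q))
    (hg : ∀ x : (PQ q), ((g x : (PQ q)) : ℂ → Fin q → ℂ) = fun w => p.eval w • (x : ℂ → Fin q → ℂ) w) :
    @Continuous (PQ q) (PQ q) (tauQ q) (tauQ q) g := by
  let _ := (tauQ q)
  have := tauQ_addGroup (q := q)
  let G : (PQ q) →+ (PQ q) := AddMonoidHom.mk' g (by
    intro a b
    apply Subtype.ext
    rw [Submodule.coe_add, hg, hg, hg]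
    funext w
    simp [smul_add])
  have : Continuous G := by
    apply continuous_of_continuousAt_zero G
    rw [ContinuousAt, map_zero]
    intro V hV
    obtain ⟨n, δ, hδ, hV⟩ := mem_nhds_tauQ.mp hV
    obtain ⟨K, hK, h⟩ := poly_smul_boundQ (q := q) p n
    refine mem_nhds_tauQ.mpr ⟨n + 1, δ / K, by positivity, ?_⟩
    intro x hx
    apply hV
    intro z j
    have := h x (δ / K) (by positivity) hx z j
    rw [mul_div_cancel₀ _ hK.ne'] at this
    change ‖((g x : (PQ q)) : ℂ → Fin q → ℂ) z j‖ ≤ _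
    rw [hg]
    exact this
  exact this

lemma div_bound_vecQ {g x : ℂ → Fin q → ℂ} (hg : Differentiable ℂ g) (c : ℂ)
    (hx : ∀ w, x w = (w - c) • g w) {n : ℕ} {K : ℝ} (hK : 0 ≤ K)
    (hb : ∀ z j, ‖x z j‖ ≤ K * wd n z) (z : ℂ) (j : Fin q) :
    ‖g z j‖ ≤ (K * Real.exp 4) * wd n z := by
  rw [mul_assoc]
  refine div_bound (W := wd n) (differentiable_pi.mp hg j) hK (fun a b => wd_lip n) c
    (fun w => ?_) z
  have := hb w j
  rw [hx w] at this
  simpa using this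

lemma sum_boundQ {n : ℕ} (F : Fin n → (PQ q)) (m : ℕ) : ∃ C : ℝ, 0 < C ∧ ∀ z,
    ∑ i, ‖(F i : ℂ → Fin q → ℂ) z‖ ≤ C * wd m z := by
  choose C hC hF using fun i => (F i).2.2 m
  refine ⟨∑ i, C i + 1, ?_, fun z => ?_⟩
  · have : 0 ≤ ∑ i, C i := Finset.sum_nonneg fun i _ => (hC i).le
    linarith
  · rw [add_mul, Finset.sum_mul]
    have : ∑ i, ‖(F i : ℂ → Fin q → ℂ) z‖ ≤ ∑ i, C i * wd m z := Finset.sum_le_sum fun i _ =>
      (pi_norm_le_iff_of_nonneg (mul_pos (hC i) (wd_pos _ _)).le).2 (hF i z)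
    have := wd_pos m z
    linarith

/-- The generators of the components: two hyperbolic cosines, then ones up to `k`, then zeros. -/
noncomputable def GG (k : ℕ) (j : ℕ) (z : ℂ) : ℂ :=
  if j = 0 then CH z else if j = 1 then CH (I * z) else if j < k then 1 else 0

lemma GG_diff (k j : ℕ) : Differentiable ℂ (GG k j) := by
  unfold GG
  split_ifs
  · exact CH_diff
  · exact CH_diff.comp (differentiable_id.const_mul _)
  · exact differentiable_const _
  · exact differentiable_const _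

lemma GG_le (k j n : ℕ) (z : ℂ) : ‖GG k j z‖ ≤ 2 * wd n z := by
  have h := exp_le_wd n z
  have h1 : ∀ w : ℂ, ‖CH w‖ ≤ 2 * Real.exp ‖w‖ := fun w => (norm_CH_le w).trans (by
    gcongr
    exact Complex.abs_re_le_norm w)
  have h2 := Real.one_le_exp (norm_nonneg z)
  unfold GG
  split_ifs
  · linarith [h1 z]
  · have := h1 (I * z)
    rw [norm_mul, norm_I, one_mul] at this
    linarith
  · rw [norm_one]
    linarith
  · rw [norm_zero]
    linarith

lemma GG_zero_ne {k j : ℕ} (h : j < k) : GG k j 0 ≠ 0 := by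
  unfold GG
  split_ifs <;> simp [CH_zero]

lemma GG_eq_zero {k j : ℕ} (hk : 2 ≤ k) (h : k ≤ j) (z : ℂ) : GG k j z = 0 := by
  unfold GG
  rw [if_neg (by omega), if_neg (by omega), if_neg (by omega)]

/-- The divisorial submodule. -/
noncomputable def IQ (q k : ℕ) : Submodule ℂ (PQ q) where
  carrier := {u | ∀ z (j : Fin q), GG k j z = 0 → u.1 z j = 0}
  add_mem' := by
    intro a b ha hb z j h
    simp [ha z j h, hb z j h]
  zero_mem' := fun z j _ => rfl
  smul_mem' := by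
    intro c a ha z j h
    simp [ha z j h]

/-- The diagonal generators. -/
noncomputable def genQ (k : ℕ) (s : Fin q) : PQ q :=
  ⟨fun z j => if j = s then GG k j z else 0, differentiable_pi.mpr fun j => by
    split_ifs
    · exact GG_diff k j
    · exact differentiable_const _, fun n => ⟨2, two_pos, fun z j => by
    dsimp only
    split_ifs
    · exact GG_le k j n z
    · simpa using (wd_pos _ _).le⟩⟩

lemma genQ_mem (k : ℕ) (s : Fin q) : genQ k s ∈ IQ q k := fun z j h => by simp [genQ, h]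

/-- The components of the element with respect to which saturation fails. -/
noncomputable def ff (j : ℕ) (z : ℂ) : ℂ :=
  if j = 0 then exp ((4 - 3 * I) / 5 * z) + exp ((4 + 3 * I) / 5 * z) else
    if j = 1 then exp z else 0

lemma ff_le (j : ℕ) (z : ℂ) : ‖ff j z‖ ≤ 2 * Real.exp ‖z‖ := by
  have h : ∀ a : ℂ, normSq a = 1 → ‖exp (a * z)‖ ≤ Real.exp ‖z‖ := fun a ha => by
    have := Complex.norm_exp_le_exp_norm (a * z)
    rwa [norm_mul, Complex.norm_def a, ha, Real.sqrt_one, one_mul] at this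
  have p := Real.exp_pos ‖z‖
  unfold ff
  split_ifs
  · linarith [norm_add_le (exp ((4 - 3 * I) / 5 * z)) (exp ((4 + 3 * I) / 5 * z)),
      h ((4 - 3 * I) / 5) (by norm_num [normSq_apply]),
      h ((4 + 3 * I) / 5) (by norm_num [normSq_apply])]
  · linarith [Complex.norm_exp_le_exp_norm z]
  · rw [norm_zero]
    linarith

/-- The element with respect to which saturation fails. -/
noncomputable def fQ (q : ℕ) : PQ q :=
  ⟨fun z j => ff j z, differentiable_pi.mpr fun j => by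
    unfold ff
    split_ifs <;> fun_prop, fun n => ⟨2, two_pos, fun z j =>
      (ff_le j z).trans (mul_le_mul_of_nonneg_left (exp_le_wd n z) zero_le_two)⟩⟩

/-- In a half-plane one of the first two components of the submodule is small against `ff`. -/
lemma small_rowQ (k : ℕ) {z : ℂ} (hz : 2 ≤ z.re) : ∃ j : ℕ, j < 2 ∧ 0 < ‖ff j z‖ ∧
    ∀ g : ℂ → ℂ, Differentiable ℂ g → (∀ w, ‖g w‖ ≤ 1 / 8 * wd 99 w) →
      (∀ w, GG k j w = 0 → g w = 0) → ‖g z‖ ≤ ‖ff j z‖ * Real.exp (-(z.re / 20)) := by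
  have hw : ∀ w : ℂ, wd 99 w = Real.exp (101 / 100 * ‖w‖) := fun w => by
    rw [wd]
    norm_num
  have hn := Complex.norm_le_abs_re_add_abs_im z
  have hx : |z.re| = z.re := abs_of_nonneg (by linarith)
  rw [hx] at hn
  rcases le_total |z.im| (2 / 3 * z.re) with h | h
  · have e : ‖ff 1 z‖ = Real.exp z.re := by simp [ff, Complex.norm_exp]
    refine ⟨1, one_lt_two, e ▸ Real.exp_pos _, fun g hg hb h0 => ?_⟩
    have key := decayC (g := fun w => g (-I * w)) (hg.comp (differentiable_id.const_mul _))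
      (fun c hc => h0 _ (by
        rw [GG, if_neg one_ne_zero, if_pos rfl, ← hc]
        congr 1
        linear_combination (-c) * I_sq)) (δ := 1 / 8) (by norm_num)
      (fun w => by simpa [hw] using hb (-I * w)) (z := I * z) (by simp; linarith)
    rw [show -I * (I * z) = z by linear_combination (-z) * I_sq] at key
    simp only [mul_re, I_re, zero_mul, I_im, one_mul, zero_sub, abs_neg, mul_im, zero_add] at key
    rw [e, ← Real.exp_add]
    have := Real.exp_le_exp.2 (show |z.im| + 5 / 28 * z.re ≤ z.re + -(z.re / 20) by linarith)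
    linarith [Real.exp_pos (|z.im| + 5 / 28 * z.re)]
  · have e1 : ((4 - 3 * I) / 5 * z).re = (4 * z.re + 3 * z.im) / 5 := by
      simp
      ring
    have e2 : ((4 + 3 * I) / 5 * z).re = (4 * z.re - 3 * z.im) / 5 := by
      simp
      ring
    have e : Real.exp ((4 * z.re + 3 * |z.im|) / 5) / 2 ≤ ‖ff 0 z‖ := by
      rw [ff, if_pos rfl]
      rcases abs_cases z.im with ⟨a, -⟩ | ⟨a, -⟩ <;> rw [a] at h ⊢
      · rw [← e1]
        exact half_le_add (by rw [e1, e2]; linarith)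
      · rw [add_comm (exp _), mul_neg, ← sub_eq_add_neg, ← e2]
        exact half_le_add (by rw [e1, e2]; linarith)
    refine ⟨0, two_pos, (half_pos (Real.exp_pos _)).trans_le e, fun g hg hb h0 => ?_⟩
    have key : ‖g z‖ ≤ 4 * (1 / 8) * Real.exp (z.re + 5 / 28 * |z.im|) := by
      rcases abs_cases z.im with ⟨a, -⟩ | ⟨a, -⟩ <;> rw [a] at h hn ⊢
      · rw [← hx]
        exact decayC hg (fun c hc => h0 _ (by rwa [GG, if_pos rfl])) (by norm_num)
          (fun w => hw w ▸ hb w) (by linarith)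
      · have := decayC (g := fun w => g (-w)) (hg.comp differentiable_neg)
          (fun c hc => h0 _ (by rwa [GG, if_pos rfl, CH_neg])) (δ := 1 / 8) (by norm_num)
          (fun w => by simpa [hw] using hb (-w)) (z := -z) (by simp; linarith)
        simpa [hx] using this
    refine key.trans (le_trans ?_ (mul_le_mul_of_nonneg_right e (Real.exp_pos _).le))
    rw [div_mul_eq_mul_div (Real.exp _), ← Real.exp_add]
    have := Real.exp_le_exp.2 (show z.re + 5 / 28 * |z.im| ≤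
      (4 * z.re + 3 * |z.im|) / 5 + -(z.re / 20) by linarith)
    linarith

end Pool.Agent.Lib.MP_efa496_an
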